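import Pool.Agent.H70.BA.Cnt

set_option autoImplicit false

/-! # [H70 BA SUM] Sums over separated sets

`σ = K/√N ≤ 1`, `K ≥ 8`. For `ζ ∈ X` let `m = ⌊2 rho z ζ / σ⌋₊`. If `N ≤ 2 n`: `‖ip‖^n ≤ exp (-n rho²/2) ≤ exp (-N m² σ²/16) = exp (-m² K²/16) ≤ q^m`, `q = exp (-K²/16) ≤ exp (-4) ≤ 1/16`. The number of `ζ` with `⌊..⌋₊ = m` is at most `C (m + 2)²` (`count` with `r = (m+1) σ/2`).
`shell`: group the sum by `m` (`Finset.sum_fiberwise_of_maps_to` with `range M`, `M` large, or `Finset.sum_comp`-type; the fibres of `m < m0` are excluded by the filter): `∑ ≤ ∑_(m0 ≤ m < M) g m · C (m+2)² q^m`.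
`sum_far` (`m ≥ 1`): `(m+2)² ≤ 9 · 2^(m-1)`, `∑_(m≥1) 9 C 2^(m-1) q^m ≤ 18 C q`, small for `K` large. `sum_all`: `rho ≤ (m+1) σ/2 ≤ (m+1) K/√N`, `∑ (m+1)(m+2)² q^m` bounded (for instance `(m+1)(m+2)² ≤ 4 · 6^m`.., `6 q < 1/2`). -/

namespace Pool.Agent.H70.BA

open MeasureTheory Metric

private theorem sum_dec (K : ℝ) (N n : ℕ) (hK : 8 ≤ K) (hN : K ^ 2 ≤ N) (hn : N ≤ 2 * n)
    (z ζ : S) : ‖ip ζ z‖ ^ n ≤ Real.exp (-(K ^ 2 / 16)) ^ ⌊2 * rho z ζ / (K / √N)⌋₊ := by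
  have hN0 : (0 : ℝ) < N := by nlinarith
  have hs : 0 < √(N : ℝ) := Real.sqrt_pos.2 hN0
  have hss : √(N : ℝ) * √(N : ℝ) = N := Real.mul_self_sqrt hN0.le
  have hK0 : 0 < K := by linarith
  have hσ : 0 < K / √(N : ℝ) := by positivity
  have hr := rho_nonneg z ζ
  obtain ⟨m, hm⟩ : ∃ m, m = ⌊2 * rho z ζ / (K / √(N : ℝ))⌋₊ := ⟨_, rfl⟩
  rw [← hm]
  have h1 : (m : ℝ) ≤ 2 * rho z ζ / (K / √(N : ℝ)) := by
    rw [hm]
    exact Nat.floor_le (by positivity)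
  rw [le_div_iff₀ hσ, mul_div_assoc'] at h1
  rw [div_le_iff₀ hs] at h1
  have h2 : ((m : ℝ) * K) ^ 2 ≤ (2 * rho z ζ * √(N : ℝ)) ^ 2 := pow_le_pow_left₀ (by positivity) h1 2
  have h3 : (2 * rho z ζ * √(N : ℝ)) ^ 2 = 4 * (N * rho z ζ ^ 2) := by
    calc (2 * rho z ζ * √(N : ℝ)) ^ 2 = 4 * ((√(N : ℝ) * √(N : ℝ)) * rho z ζ ^ 2) := by ring
      _ = _ := by rw [hss]
  rw [h3] at h2
  have h4 : (N : ℝ) ≤ 2 * n := by exact_mod_cast hn
  have h5 : (N : ℝ) * rho z ζ ^ 2 ≤ 2 * n * rho z ζ ^ 2 :=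
    mul_le_mul_of_nonneg_right h4 (by positivity)
  have h6 : (m : ℝ) ≤ (m : ℝ) ^ 2 := by
    rcases Nat.eq_zero_or_pos m with h | h
    · rw [h]
      norm_num
    · have : (1 : ℝ) ≤ m := by exact_mod_cast h
      nlinarith
  have h7 : (m : ℝ) * (K ^ 2 / 16) ≤ n * rho z ζ ^ 2 / 2 := by
    have h8 : (m : ℝ) * K ^ 2 ≤ (m : ℝ) ^ 2 * K ^ 2 := mul_le_mul_of_nonneg_right h6 (by positivity)
    have h9 : ((m : ℝ) * K) ^ 2 = (m : ℝ) ^ 2 * K ^ 2 := by ring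
    linarith
  refine (ip_decay z ζ n).trans ?_
  rw [← Real.exp_nat_mul]
  refine Real.exp_le_exp.2 ?_
  linarith

private theorem sum_shell {C : ℝ} (hC : ∀ σ : ℝ, 0 < σ → σ ≤ 1 → ∀ X : Finset S, Sep σ X →
    ∀ (z : S) (r : ℝ), 0 < r →
      ((X.filter (fun ζ : S => rho z ζ < r)).card : ℝ) ≤ C * (2 * r / σ + 1) ^ 2)
    (σ : ℝ) (h0 : 0 < σ) (h1 : σ ≤ 1) (X : Finset S) (hX : Sep σ X) (z : S) (Y : Finset S)
    (hY : Y ⊆ X) (F : S → ℝ) (G : ℕ → ℝ) (hF : ∀ ζ ∈ Y, F ζ ≤ G ⌊2 * rho z ζ / σ⌋₊)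
    (hG : ∀ m, 0 ≤ G m) (B : ℝ) (hB : 0 ≤ B)
    (hGB : ∀ m : ℕ, (C * ((m : ℝ) + 2) ^ 2) * G m ≤ B * (1 / 2) ^ m) :
    ∑ ζ ∈ Y, F ζ ≤ 2 * B := by
  classical
  calc ∑ ζ ∈ Y, F ζ ≤ ∑ ζ ∈ Y, G ⌊2 * rho z ζ / σ⌋₊ := Finset.sum_le_sum hF
    _ = ∑ k ∈ Y.image (fun ζ : S => ⌊2 * rho z ζ / σ⌋₊),
        ∑ ζ ∈ Y.filter (fun ζ : S => ⌊2 * rho z ζ / σ⌋₊ = k), G ⌊2 * rho z ζ / σ⌋₊ :=
      (Finset.sum_fiberwise_of_maps_to (fun ζ hζ => Finset.mem_image_of_mem _ hζ) _).symm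
    _ ≤ ∑ k ∈ Y.image (fun ζ : S => ⌊2 * rho z ζ / σ⌋₊), B * (1 / 2) ^ k := by
      refine Finset.sum_le_sum fun k _ => ?_
      refine le_trans ?_ (hGB k)
      have h2 : ∑ ζ ∈ Y.filter (fun ζ : S => ⌊2 * rho z ζ / σ⌋₊ = k), G ⌊2 * rho z ζ / σ⌋₊ =
          (Y.filter (fun ζ : S => ⌊2 * rho z ζ / σ⌋₊ = k)).card * G k := by
        rw [← nsmul_eq_mul, ← Finset.sum_const]
        refine Finset.sum_congr rfl fun ζ hζ => ?_
        rw [(Finset.mem_filter.1 hζ).2]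
      rw [h2]
      refine mul_le_mul_of_nonneg_right ?_ (hG k)
      have h3 := hC σ h0 h1 X hX z (((k : ℝ) + 1) * σ / 2) (by positivity)
      have h4 : 2 * (((k : ℝ) + 1) * σ / 2) / σ + 1 = (k : ℝ) + 2 := by
        field_simp
        ring
      rw [h4] at h3
      refine le_trans (Nat.cast_le.2 (Finset.card_le_card ?_)) h3
      intro ζ hζ
      rw [Finset.mem_filter] at hζ ⊢
      refine ⟨hY hζ.1, ?_⟩
      have h5 := Nat.lt_floor_add_one (2 * rho z ζ / σ)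
      rw [hζ.2, div_lt_iff₀ h0] at h5
      linarith
    _ ≤ ∑' k : ℕ, B * (1 / 2) ^ k := by
      refine Summable.sum_le_tsum _ (fun k _ => by positivity) ?_
      exact summable_geometric_two.mul_left B
    _ = 2 * B := by
      rw [tsum_mul_left, tsum_geometric_two]
      ring

private theorem sum_sig (K : ℝ) (N : ℕ) (hK : 8 ≤ K) (hN : K ^ 2 ≤ N) :
    0 < √(N : ℝ) ∧ 0 < K / √(N : ℝ) ∧ K / √(N : ℝ) ≤ 1 := by
  have hN0 : (0 : ℝ) < N := by nlinarith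
  have hs : 0 < √(N : ℝ) := Real.sqrt_pos.2 hN0
  refine ⟨hs, by positivity, ?_⟩
  rw [div_le_one hs]
  exact Real.le_sqrt_of_sq_le hN

private theorem sum_two (m : ℕ) : (m : ℝ) + 2 ≤ 2 * 2 ^ m := by
  induction m with
  | zero => norm_num
  | succ m ih =>
    have h1 : (1 : ℝ) ≤ 2 ^ m := one_le_pow₀ (by norm_num)
    rw [pow_succ]
    push_cast
    linarith

private theorem sum_nine (m : ℕ) : (((m + 1 : ℕ) : ℝ) + 2) ^ 2 ≤ 9 * 2 ^ m := by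
  induction m with
  | zero => norm_num
  | succ m ih =>
    have h0 : (2 : ℝ) ^ (m + 1) = 2 ^ m * 2 := pow_succ _ _
    rw [h0]
    have h1 : ((((m + 1 + 1 : ℕ) : ℝ)) + 2) ^ 2 ≤ 2 * (((m + 1 : ℕ) : ℝ) + 2) ^ 2 := by
      push_cast
      have : (0 : ℝ) ≤ m := Nat.cast_nonneg m
      nlinarith
    linarith

theorem sum_far (ε : ℝ) (hε : 0 < ε) : ∃ K₀ : ℝ, 8 ≤ K₀ ∧ ∀ K : ℝ, K₀ ≤ K → ∀ N : ℕ,
    K ^ 2 ≤ N → ∀ X : Finset S, Sep (K / √N) X → ∀ z : S,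
      ∑ ζ ∈ X.filter (fun ζ : S => K / √N / 2 ≤ rho z ζ), ‖ip ζ z‖ ^ N ≤ ε := by
  obtain ⟨C, hC1, hC⟩ := count
  refine ⟨max 8 (16 * |Real.log (ε / (72 * C))|), le_max_left _ _, ?_⟩
  intro K hK N hN X hX z
  have hK8 : 8 ≤ K := (le_max_left _ _).trans hK
  have hKl : 16 * |Real.log (ε / (72 * C))| ≤ K := (le_max_right _ _).trans hK
  obtain ⟨hs, hσ, hσ1⟩ := sum_sig K N hK8 hN
  obtain ⟨q, hq⟩ : ∃ q, q = Real.exp (-(K ^ 2 / 16)) := ⟨_, rfl⟩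
  have hq0 : 0 < q := by
    rw [hq]
    exact Real.exp_pos _
  have hqε : q ≤ ε / (72 * C) := by
    have h1 : 0 < ε / (72 * C) := by positivity
    rw [hq, ← Real.exp_log h1]
    refine Real.exp_le_exp.2 ?_
    have h2 := neg_abs_le (Real.log (ε / (72 * C)))
    have h3 : K ≤ K ^ 2 := by nlinarith
    linarith
  have hq4 : q ≤ 1 / 4 := by
    rw [hq]
    have h1 : Real.exp (-(K ^ 2 / 16)) ≤ Real.exp (-4) := Real.exp_le_exp.2 (by nlinarith)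
    have h2 : Real.exp (-4) ≤ 1 / 4 := by
      rw [Real.exp_neg, ← one_div]
      refine one_div_le_one_div_of_le (by norm_num) ?_
      have := Real.add_one_le_exp (4 : ℝ)
      linarith
    exact h1.trans h2
  have key := sum_shell hC (K / √(N : ℝ)) hσ hσ1 X hX z
    (X.filter (fun ζ : S => K / √N / 2 ≤ rho z ζ)) (Finset.filter_subset _ _)
    (fun ζ : S => ‖ip ζ z‖ ^ N) (fun m => if m = 0 then 0 else q ^ m) ?_ ?_ (ε / 2)
    (by positivity) ?_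
  · calc ∑ ζ ∈ X.filter (fun ζ : S => K / √N / 2 ≤ rho z ζ), ‖ip ζ z‖ ^ N ≤ 2 * (ε / 2) := key
      _ = ε := by ring
  · intro ζ hζ
    have h1 := (Finset.mem_filter.1 hζ).2
    have h2 : ⌊2 * rho z ζ / (K / √(N : ℝ))⌋₊ ≠ 0 := by
      rw [Ne, Nat.floor_eq_zero, not_lt, le_div_iff₀ hσ]
      linarith
    show ‖ip ζ z‖ ^ N ≤ if ⌊2 * rho z ζ / (K / √(N : ℝ))⌋₊ = 0 then 0 else
      q ^ ⌊2 * rho z ζ / (K / √(N : ℝ))⌋₊
    rw [if_neg h2, hq]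
    exact sum_dec K N N hK8 hN (by omega) z ζ
  · intro m
    show (0 : ℝ) ≤ if m = 0 then 0 else q ^ m
    split_ifs
    · exact le_refl _
    · positivity
  · intro m
    show (C * ((m : ℝ) + 2) ^ 2) * (if m = 0 then 0 else q ^ m) ≤ ε / 2 * (1 / 2) ^ m
    rcases m with _ | m
    · rw [if_pos rfl, mul_zero]
      positivity
    · rw [if_neg (Nat.succ_ne_zero m)]
      have h1 := sum_nine m
      have h2 : q ^ m ≤ (1 / 4) ^ m := pow_le_pow_left₀ hq0.le hq4 m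
      have h3 : (2 : ℝ) ^ m * (1 / 4) ^ m = (1 / 2) ^ m := by
        rw [← mul_pow]
        norm_num
      calc (C * ((((m + 1 : ℕ)) : ℝ) + 2) ^ 2) * q ^ (m + 1)
          ≤ (C * (9 * 2 ^ m)) * q ^ (m + 1) := by
            refine mul_le_mul_of_nonneg_right ?_ (by positivity)
            exact mul_le_mul_of_nonneg_left h1 (by linarith)
        _ = 9 * C * 2 ^ m * (q ^ m * q) := by ring
        _ ≤ 9 * C * 2 ^ m * ((1 / 4) ^ m * (ε / (72 * C))) := by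
            refine mul_le_mul_of_nonneg_left ?_ (by positivity)
            exact mul_le_mul h2 hqε hq0.le (by positivity)
        _ = 9 * C * (2 ^ m * (1 / 4) ^ m) * (ε / (72 * C)) := by ring
        _ = ε / 8 * (1 / 2) ^ m := by
            rw [h3]
            field_simp
            ring
        _ ≤ ε / 2 * (1 / 2) ^ (m + 1) := by
            rw [pow_succ]
            have : 0 ≤ ε * (1 / 2) ^ m := by positivity
            linarith

theorem sum_all (K : ℝ) (hK : 8 ≤ K) : ∃ B : ℝ, 0 < B ∧ ∀ N n : ℕ, K ^ 2 ≤ N → N ≤ 2 * n →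
    ∀ X : Finset S, Sep (K / √N) X → ∀ z : S,
      ∑ ζ ∈ X, ‖ip ζ z‖ ^ n ≤ B ∧ ∑ ζ ∈ X, rho z ζ * ‖ip ζ z‖ ^ n ≤ B / √N := by
  obtain ⟨C, hC1, hC⟩ := count
  refine ⟨8 * C * K, by positivity, ?_⟩
  intro N n hN hn X hX z
  obtain ⟨hs, hσ, hσ1⟩ := sum_sig K N hK hN
  obtain ⟨q, hq⟩ : ∃ q, q = Real.exp (-(K ^ 2 / 16)) := ⟨_, rfl⟩
  have hq0 : 0 < q := by
    rw [hq]
    exact Real.exp_pos _
  have hq16 : q ≤ 1 / 16 := by
    rw [hq]
    have h1 : Real.exp (-(K ^ 2 / 16)) ≤ Real.exp (-4) := Real.exp_le_exp.2 (by nlinarith)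
    have h2 : Real.exp (-4) ≤ 1 / 16 := by
      rw [Real.exp_neg, ← one_div]
      refine one_div_le_one_div_of_le (by norm_num) ?_
      have h3 := Real.exp_one_gt_d9
      have h4 : Real.exp 4 = Real.exp 1 ^ 4 := by
        rw [← Real.exp_nat_mul]
        norm_num
      rw [h4]
      calc (16 : ℝ) = 2 ^ 4 := by norm_num
        _ ≤ Real.exp 1 ^ 4 := pow_le_pow_left₀ (by norm_num) (by linarith) 4
    exact h1.trans h2
  have hqm : ∀ m : ℕ, q ^ m ≤ (1 / 16) ^ m := fun m => pow_le_pow_left₀ hq0.le hq16 m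
  constructor
  · have key := sum_shell hC (K / √(N : ℝ)) hσ hσ1 X hX z X (Finset.Subset.refl _)
      (fun ζ : S => ‖ip ζ z‖ ^ n) (fun m => q ^ m) ?_ (fun m => by positivity) (4 * C)
      (by positivity) ?_
    · refine key.trans ?_
      have : 0 ≤ C * (K - 1) := mul_nonneg (by linarith) (by linarith)
      linarith
    · intro ζ _
      show ‖ip ζ z‖ ^ n ≤ q ^ ⌊2 * rho z ζ / (K / √(N : ℝ))⌋₊
      rw [hq]
      exact sum_dec K N n hK hN hn z ζ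
    · intro m
      show (C * ((m : ℝ) + 2) ^ 2) * q ^ m ≤ 4 * C * (1 / 2) ^ m
      have h1 := sum_two m
      have h2 : ((m : ℝ) + 2) ^ 2 ≤ (2 * 2 ^ m) ^ 2 := pow_le_pow_left₀ (by positivity) h1 2
      have h3 : ((2 : ℝ) ^ m) ^ 2 * (1 / 16) ^ m = (1 / 4) ^ m := by
        rw [← pow_mul, mul_comm m 2, pow_mul, ← mul_pow]
        norm_num
      calc (C * ((m : ℝ) + 2) ^ 2) * q ^ m ≤ (C * (2 * 2 ^ m) ^ 2) * (1 / 16) ^ m := by
            refine mul_le_mul ?_ (hqm m) (by positivity) (by positivity)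
            exact mul_le_mul_of_nonneg_left h2 (by linarith)
        _ = 4 * C * (((2 : ℝ) ^ m) ^ 2 * (1 / 16) ^ m) := by ring
        _ = 4 * C * (1 / 4) ^ m := by rw [h3]
        _ ≤ 4 * C * (1 / 2) ^ m := by
            refine mul_le_mul_of_nonneg_left ?_ (by positivity)
            exact pow_le_pow_left₀ (by norm_num) (by norm_num) m
  · have key := sum_shell hC (K / √(N : ℝ)) hσ hσ1 X hX z X (Finset.Subset.refl _)
      (fun ζ : S => rho z ζ * ‖ip ζ z‖ ^ n)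
      (fun m => (((m : ℝ) + 1) * (K / √(N : ℝ))) * q ^ m) ?_ (fun m => by positivity)
      (4 * C * (K / √(N : ℝ))) (by positivity) ?_
    · refine key.trans (le_of_eq ?_)
      ring
    · intro ζ _
      show rho z ζ * ‖ip ζ z‖ ^ n ≤
        (((⌊2 * rho z ζ / (K / √(N : ℝ))⌋₊ : ℝ) + 1) * (K / √(N : ℝ))) *
          q ^ ⌊2 * rho z ζ / (K / √(N : ℝ))⌋₊
      rw [hq]
      refine mul_le_mul ?_ (sum_dec K N n hK hN hn z ζ) (by positivity) (by positivity)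
      have h5 := Nat.lt_floor_add_one (2 * rho z ζ / (K / √(N : ℝ)))
      rw [div_lt_iff₀ hσ] at h5
      have := rho_nonneg z ζ
      linarith
    · intro m
      show (C * ((m : ℝ) + 2) ^ 2) * ((((m : ℝ) + 1) * (K / √(N : ℝ))) * q ^ m) ≤
        4 * C * (K / √(N : ℝ)) * (1 / 2) ^ m
      have h1 := sum_two m
      have h2 : ((m : ℝ) + 2) ^ 2 ≤ (2 * 2 ^ m) ^ 2 := pow_le_pow_left₀ (by positivity) h1 2
      have h3 : ((2 : ℝ) ^ m) ^ 2 * 2 ^ m * (1 / 16) ^ m = (1 / 2) ^ m := by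
        rw [← pow_mul, mul_comm m 2, pow_mul, ← mul_pow, ← mul_pow]
        norm_num
      have h4 : (m : ℝ) + 1 ≤ 2 ^ m := by
        have h5 : (m : ℝ) + 1 ≤ ((2 ^ m : ℕ) : ℝ) := by exact_mod_cast Nat.lt_two_pow_self
        rwa [Nat.cast_pow, Nat.cast_ofNat] at h5
      calc (C * ((m : ℝ) + 2) ^ 2) * ((((m : ℝ) + 1) * (K / √(N : ℝ))) * q ^ m)
          ≤ (C * (2 * 2 ^ m) ^ 2) * ((2 ^ m * (K / √(N : ℝ))) * (1 / 16) ^ m) := by
            refine mul_le_mul ?_ ?_ (by positivity) (by positivity)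
            · exact mul_le_mul_of_nonneg_left h2 (by linarith)
            · refine mul_le_mul ?_ (hqm m) (by positivity) (by positivity)
              exact mul_le_mul_of_nonneg_right h4 hσ.le
        _ = 4 * C * (K / √(N : ℝ)) * (((2 : ℝ) ^ m) ^ 2 * 2 ^ m * (1 / 16) ^ m) := by ring
        _ = 4 * C * (K / √(N : ℝ)) * (1 / 2) ^ m := by rw [h3]

end Pool.Agent.H70.BA
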