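import Pool.Agent.H70.BA.App
import Pool.Agent.H70.BA.Sum

set_option autoImplicit false

/-! # [H70 BA AMP] Amplitude modulation of the kernels

`B` from `sum_all K`. `φ` from `app_dense A (η/(2B))`, `App φ` gives `d, C, k`. `H z = ∑_(ζ ∈ X) k ζ z * ip ζ z ^ (N - d)`, in `V (N - d) ⊆ V N₀` for `N ≥ N₀ + d` (`V_mul`, `hom_ip`, `Submodule.sum_mem`; write `H` as a sum of products of functions).
`‖H z - φ z ker X N z‖ ≤ ∑ C rho z ζ ‖ip‖^(N-d) ≤ C B/√N` for `N ≥ 2 d`, `N ≥ K²` (`sum_all` with `n = N - d`), `≤ η/2` for `N` large; `‖(φ z - A z) ker X N z‖ ≤ η/(2B) · B` (`sum_all` with `n = N`, `norm_sum_le`). (`C` may be replaced by `max C 0`.) -/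

namespace Pool.Agent.H70.BA

open MeasureTheory Metric

theorem amp (A : C(S, ℝ)) (K : ℝ) (hK : 8 ≤ K) (η : ℝ) (hη : 0 < η) (N₀ : ℕ) :
    ∃ N₁ : ℕ, ∀ N : ℕ, N₁ ≤ N → ∀ X : Finset S, Sep (K / √N) X →
      ∃ H ∈ V N₀, ∀ z : S, ‖H z - A z * ker X N z‖ ≤ η := by
  obtain ⟨B, hB, hsum⟩ := sum_all K hK
  obtain ⟨φ, ⟨d, C, k, hkV, hk⟩, hφ⟩ := app_dense A (η / (2 * B)) (by positivity)
  have hC0 : 0 ≤ max C 0 := le_max_right _ _
  obtain ⟨m, hm⟩ := exists_nat_ge (max (K ^ 2) ((2 * max C 0 * B / η) ^ 2))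
  refine ⟨m + N₀ + 2 * d, fun N hN X hX => ?_⟩
  have hmN : (m : ℝ) ≤ N := by exact_mod_cast (by omega : m ≤ N)
  have hKN : K ^ 2 ≤ (N : ℝ) := (le_max_left _ _).trans (hm.trans hmN)
  have hBN : (2 * max C 0 * B / η) ^ 2 ≤ (N : ℝ) := (le_max_right _ _).trans (hm.trans hmN)
  have hNpos : (0 : ℝ) < N := lt_of_lt_of_le (by positivity) hKN
  have hsq : 2 * max C 0 * B / η ≤ √N := by
    rw [← Real.sqrt_sq (by positivity : 0 ≤ 2 * max C 0 * B / η)]
    exact Real.sqrt_le_sqrt hBN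
  have hsN : 0 < √(N : ℝ) := Real.sqrt_pos.mpr hNpos
  refine ⟨∑ ζ ∈ X, k ζ * fun z : E => ip ζ z ^ (N - d), ?_, fun z => ?_⟩
  · refine Submodule.sum_mem _ fun ζ _ => ?_
    have h1 := V_mul (hkV ζ) (hom_mem (hom_ip (ζ : E) (N - d)) (le_refl (N - d)))
    exact V_mono (by omega) h1
  · have hs1 := (hsum N (N - d) hKN (by omega) X hX z).2
    have hs2 := (hsum N N hKN (by omega) X hX z).1
    have hsplit : (∑ ζ ∈ X, k ζ * fun z : E => ip ζ z ^ (N - d)) (z : E) - A z * ker X N z =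
        ∑ ζ ∈ X, (k ζ z - φ z * ip ζ z ^ d) * ip ζ z ^ (N - d) +
          ∑ ζ ∈ X, (φ z - (A z : ℂ)) * ip ζ z ^ N := by
      rw [Finset.sum_apply, ker, Finset.mul_sum, ← Finset.sum_sub_distrib,
        ← Finset.sum_add_distrib]
      refine Finset.sum_congr rfl fun ζ _ => ?_
      have hp : ip (ζ : E) z ^ N = ip (ζ : E) z ^ d * ip (ζ : E) z ^ (N - d) := by
        rw [← pow_add]
        congr 1
        omega
      simp only [Pi.mul_apply]
      rw [hp]
      ring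
    rw [hsplit]
    refine (norm_add_le _ _).trans ?_
    have h1 : ‖∑ ζ ∈ X, (k ζ z - φ z * ip ζ z ^ d) * ip ζ z ^ (N - d)‖ ≤
        max C 0 * (B / √N) := by
      refine (norm_sum_le _ _).trans ?_
      refine le_trans (Finset.sum_le_sum fun ζ _ => ?_)
        (le_trans (le_of_eq (Finset.mul_sum X (fun ζ : S => rho z ζ * ‖ip ζ z‖ ^ (N - d))
          (max C 0)).symm) (mul_le_mul_of_nonneg_left hs1 hC0))
      rw [norm_mul, norm_pow, ← mul_assoc]
      refine mul_le_mul_of_nonneg_right ?_ (by positivity)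
      refine (hk z ζ).2.trans (mul_le_mul_of_nonneg_right (le_max_left _ _) (norm_nonneg _))
    have h2 : ‖∑ ζ ∈ X, (φ z - (A z : ℂ)) * ip ζ z ^ N‖ ≤ η / (2 * B) * B := by
      refine (norm_sum_le _ _).trans ?_
      refine le_trans (Finset.sum_le_sum fun ζ _ => ?_)
        (le_trans (le_of_eq (Finset.mul_sum X (fun ζ : S => ‖ip ζ z‖ ^ N)
          (η / (2 * B))).symm) (mul_le_mul_of_nonneg_left hs2 (by positivity)))
      rw [norm_mul, norm_pow]
      exact mul_le_mul_of_nonneg_right (hφ z) (by positivity)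
    have h3 : max C 0 * (B / √N) ≤ η / 2 := by
      rw [← mul_div_assoc, div_le_iff₀ hsN]
      rw [div_le_iff₀ hη] at hsq
      linarith
    have h4 : η / (2 * B) * B = η / 2 := by
      field_simp
    linarith

end Pool.Agent.H70.BA
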