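import Pool.Agent.H70.BA.Def

set_option autoImplicit false

/-! # [H70 BA RHO] The pseudo metric `rho`

All for points of the unit sphere (coerced to `E`). `rho_sq`: expand `‖z - <z,ζ> ζ‖²` (`‖z‖ = ‖ζ‖ = 1`).
`rho_comm`: from `rho_sq` (`‖ip ζ z‖ = ‖ip z ζ‖`) and nonnegativity. `rho_le`: `rho z ζ ≤ ‖z - t • ζ‖` for every `t : ℂ` (the square of the right side is `rho² + ‖t - ip ζ z‖²`).
`rho_tri`: with `t = ip y x`, `s = ip z y`: `rho x z ≤ ‖x - (t s) • z‖ ≤ ‖x - t • y‖ + ‖t‖ ‖y - s • z‖`, `‖t‖ ≤ 1`.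
`ip_decay`: `‖ip‖² = 1 - rho² ≤ exp (- rho²)`, so `‖ip‖ ≤ exp (-rho²/2)`; power `n`. `ip_bern`: `‖ip‖^N ≥ (‖ip‖²)^N = (1 - rho²)^N ≥ 1 - N rho²` (Bernoulli, `one_add_mul_le_pow`).
`rho_near`: with `u = ip ζ z`, `z = u • ζ + w`, `‖w‖ = rho`: `conj (z i) * u = ‖u‖² conj (ζ i) + conj (w i) u`, so the difference is `rho² conj (ζ i) - conj (w i) u`, norm `≤ rho² + rho ≤ 2 rho`. -/

namespace Pool.Agent.H70.BA

open MeasureTheory Metric ComplexConjugate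

private theorem nrm (z : S) : ‖(z : E)‖ = 1 := norm_eq_of_mem_sphere z

theorem norm_ip_le (z ζ : S) : ‖ip ζ z‖ ≤ 1 := by
  have h := norm_inner_le_norm (𝕜 := ℂ) (ζ : E) (z : E)
  rw [nrm, nrm, one_mul] at h
  exact h

private theorem gen (z ζ : S) (t : ℂ) :
    ‖(z : E) - t • (ζ : E)‖ ^ 2 = 1 - ‖ip ζ z‖ ^ 2 + ‖t - ip ζ z‖ ^ 2 := by
  have h1 := norm_sub_sq (𝕜 := ℂ) (z : E) (t • (ζ : E))
  have h2 : inner ℂ (z : E) (t • (ζ : E)) = t * conj (ip ζ z) := by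
    rw [inner_smul_right, ip, inner_conj_symm]
  have h3 : ‖t • (ζ : E)‖ = ‖t‖ := by rw [norm_smul, nrm, mul_one]
  rw [h1, h2, h3, nrm]
  have h4 : ‖t - ip ζ z‖ ^ 2 = ‖t‖ ^ 2 + ‖ip ζ z‖ ^ 2 - 2 * (t * conj (ip ζ z)).re := by
    rw [Complex.sq_norm, Complex.sq_norm, Complex.sq_norm]
    exact Complex.normSq_sub t (ip ζ z)
  rw [h4]
  have h5 : RCLike.re (t * conj (ip ζ z)) = (t * conj (ip ζ z)).re := rfl
  rw [h5]
  ring

theorem rho_nonneg (z ζ : E) : 0 ≤ rho z ζ := norm_nonneg _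

theorem rho_sq (z ζ : S) : rho z ζ ^ 2 = 1 - ‖ip ζ z‖ ^ 2 := by
  have h := gen z ζ (ip ζ z)
  rw [sub_self, norm_zero] at h
  rw [rho, h]
  ring

private theorem rho_le' (z ζ : S) (t : ℂ) : rho z ζ ≤ ‖(z : E) - t • (ζ : E)‖ := by
  apply le_of_sq_le_sq _ (norm_nonneg _)
  rw [rho_sq, gen]
  have := sq_nonneg ‖t - ip ζ z‖
  linarith

theorem rho_le_one (z ζ : S) : rho z ζ ≤ 1 := by
  have h := rho_sq z ζ
  have h2 := sq_nonneg ‖ip ζ z‖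
  nlinarith [rho_nonneg z ζ]

theorem rho_comm (z ζ : S) : rho z ζ = rho ζ z := by
  have h1 := rho_sq z ζ
  have h2 := rho_sq ζ z
  have h3 : ‖ip ζ z‖ = ‖ip z ζ‖ := norm_inner_symm _ _
  rw [h3, ← h2] at h1
  exact (sq_eq_sq₀ (rho_nonneg _ _) (rho_nonneg _ _)).mp h1

theorem rho_self (z : S) : rho z z = 0 := by
  have h1 : ip z z = 1 := by
    rw [ip, inner_self_eq_norm_sq_to_K, nrm]
    simp
  rw [rho, h1, one_smul, sub_self, norm_zero]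

theorem rho_tri (x y z : S) : rho x z ≤ rho x y + rho y z := by
  refine (rho_le' x z (ip y x * ip z y)).trans ?_
  have e : (x : E) - (ip y x * ip z y) • (z : E) =
      ((x : E) - ip y x • (y : E)) + ip y x • ((y : E) - ip z y • (z : E)) := by
    rw [smul_sub, smul_smul]
    abel
  rw [e]
  refine (norm_add_le _ _).trans ?_
  rw [norm_smul]
  have h1 := norm_ip_le x y
  have h2 := rho_nonneg y z
  change rho x y + ‖ip y x‖ * rho y z ≤ _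
  nlinarith

theorem ip_decay (z ζ : S) (n : ℕ) : ‖ip ζ z‖ ^ n ≤ Real.exp (-(n * rho z ζ ^ 2 / 2)) := by
  have h1 : ‖ip ζ z‖ ≤ Real.exp (-(rho z ζ ^ 2 / 2)) := by
    apply le_of_sq_le_sq _ (Real.exp_pos _).le
    have h2 := rho_sq z ζ
    have h3 := Real.add_one_le_exp (-(rho z ζ ^ 2))
    rw [← Real.exp_nat_mul]
    have e : ((2 : ℕ) : ℝ) * -(rho z ζ ^ 2 / 2) = -(rho z ζ ^ 2) := by
      push_cast
      ring
    rw [e]
    linarith
  refine (pow_le_pow_left₀ (norm_nonneg _) h1 n).trans (le_of_eq ?_)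
  rw [← Real.exp_nat_mul]
  congr 1
  ring

theorem ip_bern (z ζ : S) (N : ℕ) : 1 - N * rho z ζ ^ 2 ≤ ‖ip ζ z‖ ^ N := by
  have h1 := rho_sq z ζ
  have h2 := norm_ip_le z ζ
  have h3 := norm_nonneg (ip ζ z)
  have h4 := rho_le_one z ζ
  have h5 := rho_nonneg z ζ
  have h6 : (-2 : ℝ) ≤ -(rho z ζ ^ 2) := by nlinarith
  have h7 := one_add_mul_le_pow h6 N
  have h8 : 1 + -(rho z ζ ^ 2) ≤ ‖ip ζ z‖ := by nlinarith
  have h9 : 0 ≤ 1 + -(rho z ζ ^ 2) := by nlinarith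
  have h10 := pow_le_pow_left₀ h9 h8 N
  linarith

theorem rho_near (z ζ : S) (i : Fin 2) :
    ‖conj ((ζ : E) i) - conj ((z : E) i) * ip ζ z‖ ≤ 2 * rho z ζ := by
  obtain ⟨w, hw⟩ : ∃ w : E, w = (z : E) - ip ζ z • (ζ : E) := ⟨_, rfl⟩
  have hr : ‖w‖ = rho z ζ := by rw [hw, rho]
  have hz : (z : E) i = ip ζ z * (ζ : E) i + w i := by
    rw [hw]
    simp
  have hsq : (ip ζ z : ℂ) * conj (ip ζ z) = ((‖ip ζ z‖ ^ 2 : ℝ) : ℂ) := by
    rw [Complex.mul_conj, Complex.normSq_eq_norm_sq]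
  have h1 : ‖ip ζ z‖ ^ 2 = 1 - rho z ζ ^ 2 := by
    rw [rho_sq]
    ring
  have e : conj ((ζ : E) i) - conj ((z : E) i) * ip ζ z =
      ((rho z ζ ^ 2 : ℝ) : ℂ) * conj ((ζ : E) i) - conj (w i) * ip ζ z := by
    rw [hz, map_add, map_mul]
    have h2 : conj (ip ζ z) * conj ((ζ : E) i) * ip ζ z =
        (ip ζ z * conj (ip ζ z)) * conj ((ζ : E) i) := by ring
    rw [add_mul, h2, hsq, h1]
    push_cast
    ring
  rw [e]
  refine (norm_sub_le _ _).trans ?_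
  have h5 := rho_nonneg z ζ
  have h6 := rho_le_one z ζ
  have a1 : ‖conj ((ζ : E) i)‖ ≤ 1 := by
    rw [RCLike.norm_conj]
    exact (PiLp.norm_apply_le (ζ : E) i).trans (nrm ζ).le
  have a2 : ‖conj (w i)‖ ≤ rho z ζ := by
    rw [RCLike.norm_conj, ← hr]
    exact PiLp.norm_apply_le _ _
  rw [norm_mul, norm_mul, Complex.norm_real, Real.norm_of_nonneg (sq_nonneg _)]
  have a3 := norm_ip_le z ζ
  have a4 := norm_nonneg (ip ζ z)
  have a5 := norm_nonneg (conj (w i))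
  have b1 : rho z ζ ^ 2 * ‖conj ((ζ : E) i)‖ ≤ rho z ζ := by nlinarith [norm_nonneg (conj ((ζ : E) i))]
  have b2 : ‖conj (w i)‖ * ‖ip ζ z‖ ≤ rho z ζ := by nlinarith
  linarith

theorem continuous_rho (ζ : S) : Continuous fun z : S => rho z ζ := by
  unfold rho ip
  fun_prop

end Pool.Agent.H70.BA
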