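import Pool.Agent.H70.BA.Vsp
import Pool.Agent.H70.BA.Rho

set_option autoImplicit false

/-! # [H70 BA APP] Amplitudes that can be made holomorphic near every complex line

`App φ`: there are `d, C` and functions `k ζ ∈ V 0` with `‖k ζ z - φ z <z,ζ>^d‖ ≤ C rho z ζ`, `‖k ζ z‖ ≤ C`.
`app_const`: `d = 0`, `k = const` (`Hom 0`). `app_coord`: `d = 0`, `k ζ z = z i` (`Hom 1`, `‖z i‖ ≤ ‖z‖`). `app_conj`: `d = 1`, `k ζ z = conj (ζ i)`, `C = 2`, `rho_near` (swap the factors).
`app_add`: raise the degrees to `d + d'`: `k ζ * ip ζ ^ d' + k' ζ * ip ζ ^ d` (`ip ζ ` is `Hom 1`, `‖ip‖ ≤ 1`). `app_mul`: `d + d'`, `k k'`: `k k' - φ ψ u^(d+d') = k (k' - ψ u^d') + ψ u^d' (k - φ u^d)`; `‖ψ u^d'‖ ≤ ‖k'‖ + C' rho ≤ 2 C'` (`rho ≤ 1`, `C' ≥ 0`).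
`app_dense`: Stone-Weierstrass for the real subalgebra `{A : C(S, ℝ) | App (fun z => (A z : ℂ))}` (`ContinuousMap.subalgebra_topologicalClosure_eq_top_of_separatesPoints` or `exists_mem_subalgebra_near_continuous_of_separatesPoints`); it contains `Re (z i) = (z i + conj (z i))/2` and `Im (z i)`, these separate the points. -/

namespace Pool.Agent.H70.BA

open MeasureTheory Metric ComplexConjugate

/-- amplitudes that can be made holomorphic near every complex line -/
def App (φ : S → ℂ) : Prop :=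
  ∃ (d : ℕ) (C : ℝ) (k : S → E → ℂ), (∀ ζ, k ζ ∈ V 0) ∧
    ∀ z ζ : S, ‖k ζ z‖ ≤ C ∧ ‖k ζ z - φ z * ip ζ z ^ d‖ ≤ C * rho z ζ

theorem hom_ip (ζ : E) (n : ℕ) : Hom n (fun z => ip ζ z ^ n) := by
  refine ⟨?_, fun t z => ?_⟩
  · have h : Differentiable ℂ (fun z : E => (innerSL ℂ ζ) z) := (innerSL ℂ ζ).differentiable
    exact h.pow n
  · simp only [ip, inner_smul_right, mul_pow]

private theorem hom_const (c : ℂ) : Hom 0 (fun _ : E => c) :=
  ⟨differentiable_const c, fun t z => by simp⟩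

private theorem hom_coord (i : Fin 2) : Hom 1 (fun z : E => z i) := by
  refine ⟨?_, fun t z => ?_⟩
  · exact (EuclideanSpace.proj (𝕜 := ℂ) i : E →L[ℂ] ℂ).differentiable
  · simp

private theorem norm_coord_le (z : S) (i : Fin 2) : ‖(z : E) i‖ ≤ 1 := by
  have h : ‖(z : E)‖ = 1 := mem_sphere_zero_iff_norm.1 z.2
  have h2 := PiLp.norm_apply_le (z : E) i
  rwa [h] at h2

theorem app_const (c : ℂ) : App fun _ => c := by
  refine ⟨0, ‖c‖, fun _ _ => c, fun ζ => hom_mem (hom_const c) le_rfl, fun z ζ => ⟨le_rfl, ?_⟩⟩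
  simp only [pow_zero, mul_one, sub_self, norm_zero]
  exact mul_nonneg (norm_nonneg _) (rho_nonneg _ _)

theorem app_coord (i : Fin 2) : App fun z => (z : E) i := by
  refine ⟨0, 1, fun _ z => z i, fun ζ => hom_mem (hom_coord i) (Nat.zero_le _), fun z ζ =>
    ⟨norm_coord_le z i, ?_⟩⟩
  simp only [pow_zero, mul_one, sub_self, norm_zero]
  exact mul_nonneg zero_le_one (rho_nonneg _ _)

theorem app_conj (i : Fin 2) : App fun z => conj ((z : E) i) := by
  refine ⟨1, 2, fun ζ _ => conj ((ζ : E) i), fun ζ => hom_mem (hom_const _) le_rfl, fun z ζ =>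
    ⟨?_, ?_⟩⟩
  · rw [Complex.norm_conj]
    exact (norm_coord_le ζ i).trans one_le_two
  · rw [pow_one]
    exact rho_near z ζ i

private theorem V_mul0 {G H : E → ℂ} (hG : G ∈ V 0) (hH : H ∈ V 0) : G * H ∈ V 0 := by
  have h := V_mul hG hH
  rwa [Nat.add_zero] at h

private theorem ip_mem (ζ : S) (n : ℕ) : (fun z : E => ip ζ z ^ n) ∈ V 0 :=
  hom_mem (hom_ip ζ n) (Nat.zero_le _)

private theorem norm_ip_pow_le (z ζ : S) (n : ℕ) : ‖ip ζ z ^ n‖ ≤ 1 := by
  rw [norm_pow]
  exact pow_le_one₀ (norm_nonneg _) (norm_ip_le z ζ)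

theorem app_add {φ ψ : S → ℂ} (h : App φ) (h' : App ψ) : App fun z => φ z + ψ z := by
  obtain ⟨d, C, k, hk, hC⟩ := h
  obtain ⟨d', C', k', hk', hC'⟩ := h'
  refine ⟨d + d', C + C', fun ζ z => k ζ z * ip ζ z ^ d' + k' ζ z * ip ζ z ^ d,
    fun ζ => ?_, fun z ζ => ?_⟩
  · exact Submodule.add_mem (V 0) (V_mul0 (hk ζ) (ip_mem ζ d')) (V_mul0 (hk' ζ) (ip_mem ζ d))
  · obtain ⟨h1, h2⟩ := hC z ζ
    obtain ⟨h1', h2'⟩ := hC' z ζ
    have hd := norm_ip_pow_le z ζ d
    have hd' := norm_ip_pow_le z ζ d'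
    constructor
    · refine (norm_add_le _ _).trans (add_le_add ?_ ?_)
      · rw [norm_mul]
        exact (mul_le_of_le_one_right (norm_nonneg _) hd').trans h1
      · rw [norm_mul]
        exact (mul_le_of_le_one_right (norm_nonneg _) hd).trans h1'
    · have e : k ζ z * ip ζ z ^ d' + k' ζ z * ip ζ z ^ d - (φ z + ψ z) * ip ζ z ^ (d + d') =
          (k ζ z - φ z * ip ζ z ^ d) * ip ζ z ^ d' +
          (k' ζ z - ψ z * ip ζ z ^ d') * ip ζ z ^ d := by
        rw [pow_add]; ring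
      rw [e, add_mul]
      refine (norm_add_le _ _).trans (add_le_add ?_ ?_)
      · rw [norm_mul]
        exact (mul_le_of_le_one_right (norm_nonneg _) hd').trans h2
      · rw [norm_mul]
        exact (mul_le_of_le_one_right (norm_nonneg _) hd).trans h2'

theorem app_mul {φ ψ : S → ℂ} (h : App φ) (h' : App ψ) : App fun z => φ z * ψ z := by
  obtain ⟨d, C, k, hk, hC⟩ := h
  obtain ⟨d', C', k', hk', hC'⟩ := h'
  refine ⟨d + d', 3 * (C * C'), fun ζ z => k ζ z * k' ζ z, fun ζ => V_mul0 (hk ζ) (hk' ζ),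
    fun z ζ => ?_⟩
  obtain ⟨h1, h2⟩ := hC z ζ
  obtain ⟨h1', h2'⟩ := hC' z ζ
  have hd := norm_ip_pow_le z ζ d
  have hd' := norm_ip_pow_le z ζ d'
  have hC0 : 0 ≤ C := (norm_nonneg _).trans h1
  have hC0' : 0 ≤ C' := (norm_nonneg _).trans h1'
  have hr0 : 0 ≤ rho z ζ := rho_nonneg _ _
  have hr1 : rho z ζ ≤ 1 := rho_le_one z ζ
  constructor
  · rw [norm_mul]
    have := mul_le_mul h1 h1' (norm_nonneg _) hC0
    nlinarith [mul_nonneg hC0 hC0']
  · have e : k ζ z * k' ζ z - φ z * ψ z * ip ζ z ^ (d + d') =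
        k ζ z * (k' ζ z - ψ z * ip ζ z ^ d') +
        (ψ z * ip ζ z ^ d') * (k ζ z - φ z * ip ζ z ^ d) := by
      rw [pow_add]; ring
    rw [e]
    have h3 : ‖ψ z * ip ζ z ^ d'‖ ≤ 2 * C' := by
      have e2 : ψ z * ip ζ z ^ d' = k' ζ z - (k' ζ z - ψ z * ip ζ z ^ d') := by ring
      rw [e2]
      refine (norm_sub_le _ _).trans ?_
      have := mul_le_mul_of_nonneg_left hr1 hC0'
      linarith
    refine (norm_add_le _ _).trans ?_
    rw [norm_mul, norm_mul (ψ z * _)]
    have h4 := mul_le_mul h1 h2' (norm_nonneg _) hC0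
    have h5 := mul_le_mul h3 h2 (norm_nonneg _) (by positivity)
    nlinarith

private def appAlg : Subalgebra ℝ C(S, ℝ) where
  carrier := {A | App fun z => ((A z : ℝ) : ℂ)}
  mul_mem' := by
    intro A B hA hB
    have := app_mul hA hB
    simpa only [Set.mem_ofPred_eq, ContinuousMap.mul_apply, Complex.ofReal_mul] using this
  add_mem' := by
    intro A B hA hB
    have := app_add hA hB
    simpa only [Set.mem_ofPred_eq, ContinuousMap.add_apply, Complex.ofReal_add] using this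
  algebraMap_mem' := by
    intro r
    exact app_const (r : ℂ)

private theorem appAlg_sep : appAlg.SeparatesPoints := by
  intro x y hxy
  have hE : (x : E) ≠ y := fun h => hxy (Subtype.ext h)
  obtain ⟨i, hi⟩ : ∃ i, (x : E) i ≠ (y : E) i := by
    by_contra hcon
    push Not at hcon
    exact hE (by ext i; exact hcon i)
  have hre : App fun z : S => ((((z : E) i).re : ℝ) : ℂ) := by
    have h := app_mul (app_const (1 / 2 : ℂ)) (app_add (app_coord i) (app_conj i))
    refine (by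
      convert h using 2 with z
      rw [Complex.add_conj]; push_cast; ring)
  have him : App fun z : S => ((((z : E) i).im : ℝ) : ℂ) := by
    have h := app_mul (app_const (-Complex.I / 2 : ℂ))
      (app_add (app_coord i) (app_mul (app_const (-1)) (app_conj i)))
    refine (by
      convert h using 2 with z
      have : (z : E) i + -1 * conj ((z : E) i) = ((2 * ((z : E) i).im : ℝ) : ℂ) * Complex.I := by
        rw [← Complex.sub_conj]; ring
      rw [this]
      push_cast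
      linear_combination (((z : E) i).im : ℂ) * Complex.I_sq)
  by_cases h : ((x : E) i).re = ((y : E) i).re
  · have h2 : ((x : E) i).im ≠ ((y : E) i).im := fun h2 => hi (Complex.ext h h2)
    exact ⟨_, ⟨⟨fun z : S => ((z : E) i).im, by fun_prop⟩, him, rfl⟩, h2⟩
  · exact ⟨_, ⟨⟨fun z : S => ((z : E) i).re, by fun_prop⟩, hre, rfl⟩, h⟩

theorem app_dense (A : C(S, ℝ)) (η : ℝ) (hη : 0 < η) :
    ∃ φ : S → ℂ, App φ ∧ ∀ z : S, ‖φ z - (A z : ℂ)‖ ≤ η := by
  obtain ⟨g, hg⟩ := ContinuousMap.exists_mem_subalgebra_near_continuous_of_separatesPoints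
    appAlg appAlg_sep A A.continuous η hη
  refine ⟨fun z => (((g : C(S, ℝ)) z : ℝ) : ℂ), g.2, fun z => ?_⟩
  rw [← Complex.ofReal_sub, Complex.norm_real]
  exact (hg z).le

end Pool.Agent.H70.BA
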