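import Pool.Agent.H70.BA.Sph
import Pool.Agent.H70.BA.Rho

set_option autoImplicit false

/-! # [H70 BA BAL] The measure of the balls of `rho`

By invariance (`sm_map` with a linear isometry `U` with `U ζ = e`, `e = (1, 0)`; `rho (U z) (U ζ) = rho z ζ` since `U` is linear and preserves inner products) reduce to the centre `e`: then `rho z e = ‖z 1‖`. A linear isometry with `U ζ = e`: `U z = (<z,ζ>, <z,ζ'>)` with `ζ' = (-conj ζ_1, conj ζ_0)`, or extend to an
orthonormal basis (`Orthonormal.exists_orthonormalBasis_extension` / `exists_linearIsometryEquiv`..).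
`toSphere_apply'` (`dim = 4`, the set is open, `continuous_rho`): the measure is `4 vol(cone)`, `cone = {w : 0 < ‖w‖ < 1, ‖w 1‖ < r ‖w‖}`.
Upper bound: the cone is contained in `{‖w 0‖ < 1, ‖w 1‖ < r}` of volume `π · π r²`. Lower bound (`r ≤ 1`): the cone contains `{1/2 < ‖w 0‖ < 3/4, ‖w 1‖ < r / 2}` (`‖w‖² < 9/16 + 1/4 < 1`, `‖w‖ > 1/2`), which contains a product of a disc of radius `1/8` and a disc of radius `r/2`.
Volumes of products: `EuclideanSpace.volume_preserving_symm_measurableEquiv_toLp` (volume of `EuclideanSpace` = volume of `Fin 2 → ℂ`), `MeasureTheory.volume_pi`, `Measure.pi_pi`, `Complex.volume_ball`. All values are finite, so `sm.real` is fine (`measureReal`, `ENNReal.toReal_mono`). -/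

namespace Pool.Agent.H70.BA

open MeasureTheory Metric

open scoped Pointwise

/-- volume of products of plane sets, up to a constant -/
private lemma vol_box : ∃ c : ENNReal, c ≠ 0 ∧ c ≠ ⊤ ∧ ∀ U V : Set ℂ, MeasurableSet U →
    MeasurableSet V →
    (volume : Measure E) {w : E | w 0 ∈ U ∧ w 1 ∈ V} = c * (volume U * volume V) := by
  let L : (Fin 2 → ℂ) ≃L[ℝ] E := (PiLp.continuousLinearEquiv 2 ℝ (fun _ : Fin 2 => ℂ)).symm
  let ν : Measure E := Measure.map L volume
  haveI hν : ν.IsAddHaarMeasure := L.isAddHaarMeasure_map volume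
  have h1 : (volume : Measure E) = Measure.addHaarScalarFactor volume ν • ν :=
    Measure.isAddLeftInvariant_eq_smul volume ν
  have hpos : 0 < Measure.addHaarScalarFactor (volume : Measure E) ν :=
    Measure.addHaarScalarFactor_pos_of_isAddHaarMeasure _ _
  refine ⟨(Measure.addHaarScalarFactor (volume : Measure E) ν : ENNReal), ?_,
    ENNReal.coe_ne_top, ?_⟩
  · exact_mod_cast hpos.ne'
  · intro U V hU hV
    have hm : MeasurableSet {w : E | w 0 ∈ U ∧ w 1 ∈ V} := by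
      have e0 : Measurable fun w : E => w 0 := by fun_prop
      have e1 : Measurable fun w : E => w 1 := by fun_prop
      exact (e0 hU).inter (e1 hV)
    have hν2 : ν {w : E | w 0 ∈ U ∧ w 1 ∈ V} = volume U * volume V := by
      have hL : Measurable L := L.continuous.measurable
      rw [Measure.map_apply hL hm]
      have hset : L ⁻¹' {w : E | w 0 ∈ U ∧ w 1 ∈ V} =
          Set.pi Set.univ (fun i : Fin 2 => if i = 0 then U else V) := by
        ext w
        simp only [Set.mem_preimage, Set.mem_setOf_eq, Set.mem_pi, Set.mem_univ, true_implies]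
        constructor
        · rintro ⟨ha, hb⟩ i
          fin_cases i
          · exact ha
          · exact hb
        · intro h
          exact ⟨h 0, h 1⟩
      rw [hset, volume_pi_pi, Fin.prod_univ_two]
      rfl
    calc (volume : Measure E) {w : E | w 0 ∈ U ∧ w 1 ∈ V}
        = (Measure.addHaarScalarFactor (volume : Measure E) ν • ν)
            {w : E | w 0 ∈ U ∧ w 1 ∈ V} := by rw [← h1]
      _ = _ := by
          rw [Measure.smul_apply, hν2]
          rfl

/-- the centre of the model balls -/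
private noncomputable def e0 : S :=
  ⟨EuclideanSpace.single 0 1, by rw [mem_sphere_zero_iff_norm]; simp⟩

private lemma rho_e0 (z : E) : rho z e0 = ‖z 1‖ := by
  have h1 : ip (e0 : E) z = z 0 := by
    simp [ip, e0, PiLp.inner_apply]
  have h2 : z - ip (e0 : E) z • (e0 : E) = EuclideanSpace.single 1 (z 1) := by
    rw [h1]
    ext i
    fin_cases i <;> simp [e0]
  unfold rho
  rw [h2]
  simp

/-- the reduction to the centre `e0` -/
private lemma red (ζ : S) (r : ℝ) :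
    sm.real {z : S | rho z ζ < r} = sm.real {z : S | rho z e0 < r} := by
  have hon : Orthonormal ℂ (({0} : Set (Fin 2)).restrict (fun _ : Fin 2 => (ζ : E))) := by
    constructor
    · rintro ⟨i, hi⟩
      exact mem_sphere_zero_iff_norm.1 ζ.2
    · rintro ⟨i, hi⟩ ⟨j, hj⟩ hij
      exact absurd (Subtype.ext (hi.trans hj.symm)) hij
  obtain ⟨b, hb⟩ := Orthonormal.exists_orthonormalBasis_extension_of_card_eq
    (by simp : Module.finrank ℂ E = Fintype.card (Fin 2)) hon
  have hb0 : b 0 = ζ := hb 0 rfl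
  have hU : b.repr (ζ : E) = (e0 : E) := by
    rw [← hb0, b.repr_self]
    rfl
  have hme : MeasurableSet {z : S | rho z e0 < r} :=
    (isOpen_lt (continuous_rho e0) continuous_const).measurableSet
  rw [← sm_map b.repr _ hme]
  congr 1
  ext z
  have h1 : rho (b.repr (z : E)) (b.repr (ζ : E)) = rho z ζ := by
    unfold rho ip
    rw [b.repr.inner_map_map, ← map_smul, ← map_sub, b.repr.norm_map]
  rw [hU] at h1
  show rho z ζ < r ↔ rho (b.repr (z : E)) e0 < r
  rw [h1]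

private lemma norm_sq_E (w : E) : ‖w‖ ^ 2 = ‖w 0‖ ^ 2 + ‖w 1‖ ^ 2 := by
  rw [EuclideanSpace.norm_sq_eq, Fin.sum_univ_two]

private lemma cone_sub (r : ℝ) (hr : 0 < r) :
    Set.Ioo (0 : ℝ) 1 • ((↑) '' {z : S | rho z e0 < r} : Set E) ⊆
      {w : E | w 0 ∈ ball (0 : ℂ) 1 ∧ w 1 ∈ ball (0 : ℂ) r} := by
  rintro _ ⟨t, ht, _, ⟨z, hz, rfl⟩, rfl⟩
  have hz1 : ‖(z : E) 1‖ < r := by rw [← rho_e0]; exact hz
  have hzn : ‖(z : E)‖ = 1 := mem_sphere_zero_iff_norm.1 z.2
  have hz0 : ‖(z : E) 0‖ ≤ 1 := by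
    have := norm_sq_E (z : E)
    rw [hzn] at this
    nlinarith [norm_nonneg ((z : E) 0), sq_nonneg ‖(z : E) 1‖]
  have ht0 : ‖(t : ℝ)‖ = t := by rw [Real.norm_eq_abs, abs_of_pos ht.1]
  constructor
  · show (t • (z : E)) 0 ∈ ball (0 : ℂ) 1
    rw [mem_ball_zero_iff, PiLp.smul_apply, norm_smul, ht0]
    nlinarith [ht.1, ht.2, norm_nonneg ((z : E) 0)]
  · show (t • (z : E)) 1 ∈ ball (0 : ℂ) r
    rw [mem_ball_zero_iff, PiLp.smul_apply, norm_smul, ht0]
    nlinarith [ht.1, ht.2, norm_nonneg ((z : E) 1)]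

private lemma sub_cone (r : ℝ) (hr : 0 < r) (hr1 : r ≤ 1) :
    {w : E | w 0 ∈ ball (5 / 8 : ℂ) (1 / 8) ∧ w 1 ∈ ball (0 : ℂ) (r / 2)} ⊆
      Set.Ioo (0 : ℝ) 1 • ((↑) '' {z : S | rho z e0 < r} : Set E) := by
  rintro w ⟨h0, h1⟩
  rw [mem_ball_zero_iff] at h1
  rw [mem_ball, dist_eq_norm] at h0
  have h58 : ‖(5 / 8 : ℂ)‖ = 5 / 8 := by norm_num
  have ha : ‖w 0‖ < 3 / 4 := by
    have := norm_add_le (w 0 - 5 / 8) (5 / 8 : ℂ)
    rw [sub_add_cancel, h58] at this
    linarith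
  have hb : 1 / 2 < ‖w 0‖ := by
    have := norm_sub_norm_le (5 / 8 : ℂ) (5 / 8 - w 0)
    rw [sub_sub_cancel, h58, norm_sub_rev (5 / 8 : ℂ) (w 0)] at this
    linarith
  have hn := norm_sq_E w
  have hw1 : ‖w‖ < 1 := by
    have : ‖w‖ ^ 2 < 1 := by
      rw [hn]
      nlinarith [norm_nonneg (w 0), norm_nonneg (w 1)]
    nlinarith [norm_nonneg w]
  have hw2 : 1 / 2 < ‖w‖ := by
    have : (1 / 2 : ℝ) ^ 2 < ‖w‖ ^ 2 := by
      rw [hn]
      nlinarith [norm_nonneg (w 0), sq_nonneg ‖w 1‖]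
    exact lt_of_pow_lt_pow_left₀ 2 (norm_nonneg w) this
  have hwp : 0 < ‖w‖ := by linarith
  have hz : ‖(‖w‖⁻¹ : ℝ) • w‖ = 1 := by
    rw [norm_smul, norm_inv, norm_norm, inv_mul_cancel₀ hwp.ne']
  refine ⟨‖w‖, ⟨hwp, hw1⟩, (‖w‖⁻¹ : ℝ) • w,
    ⟨⟨(‖w‖⁻¹ : ℝ) • w, mem_sphere_zero_iff_norm.2 hz⟩, ?_, rfl⟩, ?_⟩
  · show rho ((‖w‖⁻¹ : ℝ) • w) e0 < r
    rw [rho_e0, PiLp.smul_apply, norm_smul, norm_inv, norm_norm, inv_mul_lt_iff₀ hwp]
    nlinarith
  · show ‖w‖ • ((‖w‖⁻¹ : ℝ) • w) = w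
    rw [smul_smul, mul_inv_cancel₀ hwp.ne', one_smul]

theorem ball_meas : ∃ c₁ c₂ : ℝ, 0 < c₁ ∧ 0 < c₂ ∧
    (∀ (ζ : S) (r : ℝ), 0 < r → r ≤ 1 → c₁ * r ^ 2 ≤ sm.real {z : S | rho z ζ < r}) ∧
    ∀ (ζ : S) (r : ℝ), 0 < r → sm.real {z : S | rho z ζ < r} ≤ c₂ * r ^ 2 := by
  obtain ⟨c, hc0, hct, hc⟩ := vol_box
  have hcp : 0 < c.toReal := ENNReal.toReal_pos hc0 hct
  have hd : 0 < (Module.finrank ℝ E : ℝ) := by
    haveI : Nontrivial E := ⟨⟨(e0 : E), 0, fun h => by
      have := mem_sphere_zero_iff_norm.1 e0.2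
      rw [h, norm_zero] at this
      exact zero_ne_one this⟩⟩
    exact_mod_cast Module.finrank_pos
  have hme : ∀ r : ℝ, MeasurableSet {z : S | rho z e0 < r} := fun r =>
    (isOpen_lt (continuous_rho e0) continuous_const).measurableSet
  have hsm : ∀ r : ℝ, sm.real {z : S | rho z e0 < r} = Module.finrank ℝ E *
      ((volume : Measure E) (Set.Ioo (0 : ℝ) 1 • ((↑) '' {z : S | rho z e0 < r} : Set E))).toReal := by
    intro r
    rw [measureReal_def, Measure.toSphere_apply' _ (hme r), ENNReal.toReal_mul]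
    simp
  have hbox : ∀ (a b : ℂ) (s t : ℝ), 0 < s → 0 < t →
      (volume : Measure E) {w : E | w 0 ∈ ball a s ∧ w 1 ∈ ball b t} ≠ ⊤ ∧
      ((volume : Measure E) {w : E | w 0 ∈ ball a s ∧ w 1 ∈ ball b t}).toReal =
        c.toReal * (s ^ 2 * Real.pi * (t ^ 2 * Real.pi)) := by
    intro a b s t hs ht
    rw [hc _ _ measurableSet_ball measurableSet_ball, Complex.volume_ball, Complex.volume_ball]
    constructor
    · refine ENNReal.mul_ne_top hct (ENNReal.mul_ne_top ?_ ?_) <;>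
        exact ENNReal.mul_ne_top (ENNReal.pow_ne_top ENNReal.ofReal_ne_top) ENNReal.coe_ne_top
    · simp only [ENNReal.toReal_mul, ENNReal.toReal_pow, ENNReal.toReal_ofReal hs.le,
        ENNReal.toReal_ofReal ht.le, ENNReal.coe_toReal, NNReal.coe_real_pi]
  have hpi : 0 < Real.pi := Real.pi_pos
  refine ⟨Module.finrank ℝ E * (c.toReal * ((1 / 8) ^ 2 * Real.pi * ((1 / 2) ^ 2 * Real.pi))),
    Module.finrank ℝ E * (c.toReal * (1 ^ 2 * Real.pi * (1 * Real.pi))), by positivity,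
    by positivity, ?_, ?_⟩
  · intro ζ r hr hr1
    rw [red, hsm]
    have h1 := hbox (5 / 8) 0 (1 / 8) (r / 2) (by norm_num) (by positivity)
    have h2 := hbox 0 0 1 r (by norm_num) hr
    have h3 : ((volume : Measure E) {w : E | w 0 ∈ ball (5 / 8 : ℂ) (1 / 8) ∧
        w 1 ∈ ball (0 : ℂ) (r / 2)}).toReal ≤
        ((volume : Measure E) (Set.Ioo (0 : ℝ) 1 • ((↑) '' {z : S | rho z e0 < r} : Set E))).toReal :=
      ENNReal.toReal_mono (ne_top_of_le_ne_top h2.1 (measure_mono (cone_sub r hr)))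
        (measure_mono (sub_cone r hr hr1))
    rw [h1.2] at h3
    calc _ = (Module.finrank ℝ E : ℝ) *
          (c.toReal * ((1 / 8) ^ 2 * Real.pi * ((r / 2) ^ 2 * Real.pi))) := by ring
      _ ≤ _ := mul_le_mul_of_nonneg_left h3 hd.le
  · intro ζ r hr
    rw [red, hsm]
    have h2 := hbox 0 0 1 r (by norm_num) hr
    have h3 := ENNReal.toReal_mono h2.1 (measure_mono (μ := (volume : Measure E)) (cone_sub r hr))
    rw [h2.2] at h3
    calc _ ≤ (Module.finrank ℝ E : ℝ) *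
          (c.toReal * (1 ^ 2 * Real.pi * (r ^ 2 * Real.pi))) := mul_le_mul_of_nonneg_left h3 hd.le
      _ = _ := by ring

end Pool.Agent.H70.BA
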