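import Pool.Agent.H70.BA.Sum

set_option autoImplicit false

/-! # [H70 BA FAM] Families of kernels without common zeros

`K` from `sum_far (1/8)` (also `K ≥ 8`). `X` = net for `σ' = 1/√N /2`... precisely: `net (1/(2 √N))`: `Sep (1/(2√N)) X`, every `z` has `ζ ∈ X` with `rho z ζ < 1/(2√N)`. The number of points of `X` with `rho x y < K/√N` is at most `C (4 K + 1)²` (`count`), `Q` = its ceiling. `colour`: classes `X q = X.filter (col = q)`, each `K/√N`-separated.
Upper bound: in `X q` at most one `ζ` has `rho z ζ < K/√N/2` (`rho_tri`), its term is `≤ 1` (`norm_ip_le`), the others sum to `≤ 1/8`. Lower bound: `ζ ∈ X q` with `rho z ζ < 1/(2√N)`: `‖ip‖^N ≥ 1 - N rho² ≥ 3/4` (`ip_bern`), all others have `rho ≥ K/√N - 1/(2√N) ≥ K/√N/2`, sum `≤ 1/8`. -/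

namespace Pool.Agent.H70.BA

open MeasureTheory Metric

theorem family : ∃ (K : ℝ) (Q : ℕ), 8 ≤ K ∧ ∀ N : ℕ, K ^ 2 ≤ N →
    ∃ X : Fin (Q + 1) → Finset S, (∀ q, Sep (K / √N) (X q)) ∧
      (∀ q (z : S), ‖ker (X q) N z‖ ≤ 2) ∧ ∀ z : S, ∃ q, 1 / 2 ≤ ‖ker (X q) N z‖ := by
  classical
  obtain ⟨K, hK8, hK⟩ := sum_far (1 / 8) (by norm_num)
  obtain ⟨C, hC1, hC⟩ := count
  refine ⟨K, ⌈C * (4 * K + 1) ^ 2⌉₊, hK8, fun N hN => ?_⟩
  have hN1 : (1 : ℝ) ≤ N := by nlinarith
  have hsN : (1 : ℝ) ≤ √N := Real.one_le_sqrt.2 hN1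
  have hsN0 : (0 : ℝ) < √N := by linarith
  have hσ0 : 0 < 1 / (2 * √N) := by positivity
  have hσ1 : 1 / (2 * √N) ≤ 1 := by
    rw [div_le_one (by positivity)]
    linarith
  have hKN : 0 < K / √N := div_pos (by linarith) hsN0
  obtain ⟨X0, hX0, hnet⟩ := net (1 / (2 * √N)) hσ0 hσ1
  obtain ⟨col, hcol⟩ := colour ⌈C * (4 * K + 1) ^ 2⌉₊ (K / √N) X0 (by
    intro x hx
    have h1 := hC (1 / (2 * √N)) hσ0 hσ1 X0 hX0 x (K / √N) hKN
    have h2 : 2 * (K / √N) / (1 / (2 * √N)) = 4 * K := by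
      field_simp
      ring
    rw [h2] at h1
    have h3 : (X0.filter fun y : S => y ≠ x ∧ rho x y < K / √N).card ≤
        (X0.filter fun ζ : S => rho x ζ < K / √N).card := by
      apply Finset.card_le_card
      intro y hy
      rw [Finset.mem_filter] at hy ⊢
      exact ⟨hy.1, hy.2.2⟩
    have h4 : (((X0.filter fun y : S => y ≠ x ∧ rho x y < K / √N).card : ℕ) : ℝ) ≤
        ((⌈C * (4 * K + 1) ^ 2⌉₊ : ℕ) : ℝ) := by
      refine le_trans ?_ (h1.trans (Nat.le_ceil _))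
      exact_mod_cast h3
    exact_mod_cast h4)
  have hmem : ∀ q y, y ∈ X0.filter (fun y => col y = q) ↔ y ∈ X0 ∧ col y = q := fun q y =>
    Finset.mem_filter
  have hsep : ∀ q, Sep (K / √N) (X0.filter (fun y => col y = q)) := by
    intro q x hx y hy hxy
    rw [hmem] at hx hy
    exact hcol x hx.1 y hy.1 hxy (hx.2.trans hy.2.symm)
  refine ⟨fun q => X0.filter (fun y => col y = q), hsep, ?_, ?_⟩
  · intro q z
    have hfar := hK K le_rfl N hN _ (hsep q) z
    have hnear : ∑ ζ ∈ (X0.filter (fun y => col y = q)).filter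
        (fun ζ : S => ¬ K / √N / 2 ≤ rho z ζ), ‖ip ζ z‖ ^ N ≤ 1 := by
      have hcard : ((X0.filter (fun y => col y = q)).filter
          (fun ζ : S => ¬ K / √N / 2 ≤ rho z ζ)).card ≤ 1 := by
        rw [Finset.card_le_one]
        intro a ha b hb
        rw [Finset.mem_filter] at ha hb
        by_contra hab
        have h1 := hsep q a ha.1 b hb.1 hab
        have h2 := rho_tri a z b
        have h3 := rho_comm a z
        have h4 := ha.2
        have h5 := hb.2
        push Not at h4 h5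
        linarith
      refine (Finset.sum_le_card_nsmul _ _ 1 fun ζ _ => pow_le_one₀ (norm_nonneg _)
        (norm_ip_le z ζ)).trans ?_
      rw [nsmul_eq_mul, mul_one]
      exact_mod_cast hcard
    have h1 : ‖ker (X0.filter (fun y => col y = q)) N z‖ ≤
        ∑ ζ ∈ X0.filter (fun y => col y = q), ‖ip ζ z‖ ^ N := by
      unfold ker
      refine (norm_sum_le _ _).trans (le_of_eq (Finset.sum_congr rfl fun ζ _ => norm_pow _ _))
    rw [← Finset.sum_filter_add_sum_filter_not _ (fun ζ : S => K / √N / 2 ≤ rho z ζ)] at h1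
    linarith
  · intro z
    obtain ⟨ζ0, hζ0, hz0⟩ := hnet z
    have hin : ζ0 ∈ X0.filter (fun y => col y = col ζ0) := (hmem _ _).2 ⟨hζ0, rfl⟩
    refine ⟨col ζ0, ?_⟩
    change 1 / 2 ≤ ‖ker (X0.filter (fun y => col y = col ζ0)) N z‖
    have hfar := hK K le_rfl N hN _ (hsep (col ζ0)) z
    have hb : 3 / 4 ≤ ‖ip ζ0 z‖ ^ N := by
      refine le_trans ?_ (ip_bern z ζ0 N)
      have h1 : rho z ζ0 ^ 2 ≤ (1 / (2 * √N)) ^ 2 :=
        pow_le_pow_left₀ (rho_nonneg _ _) hz0.le 2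
      have h2 : (1 / (2 * √N)) ^ 2 = 1 / (4 * N) := by
        rw [div_pow, mul_pow, Real.sq_sqrt (by linarith)]
        norm_num
      rw [h2] at h1
      have h3 : (N : ℝ) * rho z ζ0 ^ 2 ≤ N * (1 / (4 * N)) :=
        mul_le_mul_of_nonneg_left h1 (by linarith)
      have h4 : (N : ℝ) * (1 / (4 * N)) = 1 / 4 := by
        field_simp
      rw [h4] at h3
      linarith
    have hrest : ∑ ζ ∈ (X0.filter (fun y => col y = col ζ0)).erase ζ0, ‖ip ζ z‖ ^ N ≤ 1 / 8 := by
      refine le_trans (Finset.sum_le_sum_of_subset_of_nonneg ?_ fun ζ _ _ => by positivity) hfar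
      intro ζ hζ
      rw [Finset.mem_erase] at hζ
      rw [Finset.mem_filter]
      refine ⟨hζ.2, ?_⟩
      have h1 := hsep (col ζ0) ζ0 hin ζ hζ.2 (Ne.symm hζ.1)
      have h2 := rho_tri ζ0 z ζ
      have h3 := rho_comm ζ0 z
      have h4 : 1 / (2 * √N) ≤ K / √N / 2 := by
        rw [div_div, mul_comm (√N) 2]
        exact div_le_div_of_nonneg_right (by linarith) (by positivity)
      linarith
    have h5 : ker (X0.filter (fun y => col y = col ζ0)) N z = ip ζ0 z ^ N +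
        ∑ ζ ∈ (X0.filter (fun y => col y = col ζ0)).erase ζ0, ip ζ z ^ N := by
      unfold ker
      exact (Finset.add_sum_erase _ _ hin).symm
    have h6 : ‖∑ ζ ∈ (X0.filter (fun y => col y = col ζ0)).erase ζ0, ip ζ z ^ N‖ ≤ 1 / 8 :=
      ((norm_sum_le _ _).trans (le_of_eq (Finset.sum_congr rfl fun ζ _ => norm_pow _ _))).trans
        hrest
    have h7 : ‖ip ζ0 z ^ N‖ ≤ ‖ker (X0.filter (fun y => col y = col ζ0)) N z‖ +
        ‖∑ ζ ∈ (X0.filter (fun y => col y = col ζ0)).erase ζ0, ip ζ z ^ N‖ := by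
      have h8 : (ip ζ0 z ^ N : ℂ) = ker (X0.filter (fun y => col y = col ζ0)) N z -
          ∑ ζ ∈ (X0.filter (fun y => col y = col ζ0)).erase ζ0, ip ζ z ^ N := by
        rw [h5]
        ring
      rw [h8]
      exact norm_sub_le _ _
    rw [norm_pow] at h7
    linarith

end Pool.Agent.H70.BA
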