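import Pool.Agent.H70.BA.Amp
import Pool.Agent.H70.BA.Fam

set_option autoImplicit false

/-! # [H70 BA BLK] The building block

`K, Q` from `family`, `c = 1/(32 (Q+1))`-like. Take `N` large (`≥ K²`, `≥ N₁` of `amp` for the tolerance `η₁`), `X q` from `family`. `∑_q ‖ker (X q) N z‖² ≥ 1/4` for every `z`, so `∑_q ∫ A² ‖ker (X q)‖² ≥ (1/4) ∫ A²` and some `q` has `∫ A² ‖ker‖² ≥ (1/(4(Q+1))) ∫ A²` (`Finset.exists_le_of_sum_le` / contradiction).
`H' ∈ V N₀` from `amp` for `X q`, `H = H'/2`: `‖H z‖ ≤ (A z · 2 + η₁)/2 ≤ A z + η`. `‖H' z‖² ≥ (A ‖ker‖)² - 2 η₁ A ‖ker‖ ≥ A² ‖ker‖² - 4 η₁ M`, `M` a bound for `A` (compact sphere), so `∫ ‖H‖² ≥ (1/4)(1/(4(Q+1)) ∫ A² - 4 η₁ M sm(S)) ≥ c ∫ A² - η`, `c = 1/(16 (Q+1))`, `η₁` small. -/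

namespace Pool.Agent.H70.BA

open MeasureTheory Metric

private theorem continuous_ker (X : Finset S) (n : ℕ) : Continuous fun z : S => ker X n z := by
  unfold ker
  refine continuous_finsetSum _ fun ζ _ => ?_
  exact ((hom_ip (ζ : E) n).1.continuous).comp continuous_subtype_val

private theorem integrable_cont {f : S → ℝ} (hf : Continuous f) : Integrable f sm :=
  hf.integrable_of_hasCompactSupport (HasCompactSupport.of_compactSpace f)

private theorem sq_lower {a b e : ℝ} (ha : 0 ≤ a) (h : a - e ≤ b) :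
    a ^ 2 - 2 * e * a ≤ b ^ 2 := by
  by_cases h1 : e ≤ a
  · have : (a - e) ^ 2 ≤ b ^ 2 := pow_le_pow_left₀ (by linarith) h 2
    nlinarith [sq_nonneg e]
  · push Not at h1
    nlinarith [sq_nonneg b]

theorem block : ∃ c : ℝ, 0 < c ∧ ∀ A : C(S, ℝ), (∀ z, 0 ≤ A z) → ∀ η : ℝ, 0 < η → ∀ N₀ : ℕ,
    ∃ H ∈ V N₀, (∀ z : S, ‖H z‖ ≤ A z + η) ∧
      c * ∫ z, A z ^ 2 ∂sm - η ≤ ∫ z : S, ‖H z‖ ^ 2 ∂sm := by
  obtain ⟨K, Q, hK, hfam⟩ := family
  have hQ : (0 : ℝ) < (Q : ℝ) + 1 := by positivity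
  refine ⟨1 / (16 * ((Q : ℝ) + 1)), by positivity, fun A hA η hη N₀ => ?_⟩
  set M : ℝ := ‖A‖ with hM
  have hM0 : 0 ≤ M := norm_nonneg _
  have hAM : ∀ z, A z ≤ M := fun z => (le_abs_self _).trans (A.norm_coe_le_norm z)
  set m : ℝ := sm.real Set.univ with hm
  have hm0 : 0 ≤ m := measureReal_nonneg
  have hMm : 0 < M * m + 1 := by positivity
  set e : ℝ := η / (M * m + 1) with he
  have he0 : 0 < e := by positivity
  have he1 : e ≤ η := by
    rw [he, div_le_iff₀ hMm]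
    nlinarith [mul_nonneg hM0 hm0]
  have he2 : e * M * m ≤ η := by
    have : e * (M * m + 1) = η := by
      rw [he, div_mul_cancel₀]; exact hMm.ne'
    nlinarith
  obtain ⟨N₁, hN₁⟩ := amp A K hK e he0 N₀
  set N : ℕ := max N₁ ⌈K ^ 2⌉₊ with hN
  have hKN : K ^ 2 ≤ (N : ℝ) :=
    (Nat.le_ceil _).trans (Nat.cast_le.2 (le_max_right _ _))
  obtain ⟨X, hsep, hup, hlow⟩ := hfam N hKN
  have hcA : Continuous fun z : S => A z := A.continuous
  have hint : ∀ q, Integrable (fun z : S => A z ^ 2 * ‖ker (X q) N z‖ ^ 2) sm := fun q =>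
    integrable_cont ((hcA.pow 2).mul ((continuous_ker (X q) N).norm.pow 2))
  -- pigeonhole
  obtain ⟨q, -, hq⟩ : ∃ q ∈ (Finset.univ : Finset (Fin (Q + 1))),
      1 / (4 * ((Q : ℝ) + 1)) * ∫ z, A z ^ 2 ∂sm ≤
        ∫ z : S, A z ^ 2 * ‖ker (X q) N z‖ ^ 2 ∂sm := by
    refine Finset.exists_le_of_sum_le Finset.univ_nonempty ?_
    rw [Finset.sum_const, Finset.card_univ, Fintype.card_fin, nsmul_eq_mul,
      ← integral_finsetSum _ fun q _ => hint q]
    have e1 : ((Q + 1 : ℕ) : ℝ) * (1 / (4 * ((Q : ℝ) + 1)) * ∫ z, A z ^ 2 ∂sm) =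
        ∫ z : S, (1 / 4) * A z ^ 2 ∂sm := by
      rw [integral_const_mul]
      push_cast
      field_simp
    rw [e1]
    refine integral_mono (integrable_cont (continuous_const.mul (hcA.pow 2)))
      (integrable_finsetSum _ fun q _ => hint q) fun z => ?_
    obtain ⟨q, hq⟩ := hlow z
    have h1 : (1 / 4 : ℝ) ≤ ‖ker (X q) N z‖ ^ 2 := by nlinarith
    have h2 : A z ^ 2 * ‖ker (X q) N z‖ ^ 2 ≤ ∑ q, A z ^ 2 * ‖ker (X q) N z‖ ^ 2 :=
      Finset.single_le_sum (f := fun q => A z ^ 2 * ‖ker (X q) N z‖ ^ 2)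
        (fun q _ => by positivity) (Finset.mem_univ q)
    have h3 := mul_le_mul_of_nonneg_left h1 (sq_nonneg (A z))
    simp only
    linarith
  obtain ⟨H, hH, hHA⟩ := hN₁ N (le_max_left _ _) (X q) (hsep q)
  have hup' : ∀ z : S, A z * ‖ker (X q) N z‖ ≤ A z * 2 := fun z =>
    mul_le_mul_of_nonneg_left (hup q z) (hA z)
  have hnA : ∀ z : S, ‖(A z : ℂ) * ker (X q) N z‖ = A z * ‖ker (X q) N z‖ := fun z => by
    rw [norm_mul, Complex.norm_real, Real.norm_of_nonneg (hA z)]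
  refine ⟨(1 / 2 : ℂ) • H, Submodule.smul_mem _ _ hH, fun z => ?_, ?_⟩
  · rw [Pi.smul_apply, norm_smul]
    have h1 : ‖H z‖ ≤ A z * ‖ker (X q) N z‖ + e := by
      rw [← hnA z]
      have := norm_sub_norm_le (H z) ((A z : ℂ) * ker (X q) N z)
      linarith [hHA z]
    have h2 : ‖(1 / 2 : ℂ)‖ = 1 / 2 := by norm_num
    rw [h2]
    linarith [hup' z]
  · have h2 : ‖(1 / 2 : ℂ)‖ = 1 / 2 := by norm_num
    have hcH : Continuous fun z : S => H z := (V_diff hH).continuous.comp continuous_subtype_val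
    have hpt : ∀ z : S, (1 / 4) * (A z ^ 2 * ‖ker (X q) N z‖ ^ 2) - e * M ≤
        ‖((1 / 2 : ℂ) • H) z‖ ^ 2 := by
      intro z
      have h1 : A z * ‖ker (X q) N z‖ - e ≤ ‖H z‖ := by
        rw [← hnA z]
        have := norm_sub_norm_le ((A z : ℂ) * ker (X q) N z) (H z)
        rw [norm_sub_rev] at this
        linarith [hHA z]
      have h3 := sq_lower (mul_nonneg (hA z) (norm_nonneg _)) h1
      rw [mul_pow] at h3
      have h4 : 2 * e * (A z * ‖ker (X q) N z‖) ≤ 4 * (e * M) := by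
        have := (hup' z).trans (mul_le_mul_of_nonneg_right (hAM z) zero_le_two)
        nlinarith
      rw [Pi.smul_apply, norm_smul, h2, mul_pow]
      linarith
    have hlow2 : ∫ z : S, ((1 / 4) * (A z ^ 2 * ‖ker (X q) N z‖ ^ 2) - e * M) ∂sm ≤
        ∫ z : S, ‖((1 / 2 : ℂ) • H) z‖ ^ 2 ∂sm := by
      refine integral_mono (((hint q).const_mul _).sub (integrable_const _))
        (integrable_cont ?_) hpt
      exact ((hcH.const_smul (1 / 2 : ℂ)).norm.pow 2)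
    rw [integral_sub ((hint q).const_mul _) (integrable_const _), integral_const_mul,
      integral_const, smul_eq_mul] at hlow2
    have e2 : 1 / (16 * ((Q : ℝ) + 1)) * ∫ z, A z ^ 2 ∂sm =
        1 / 4 * (1 / (4 * ((Q : ℝ) + 1)) * ∫ z, A z ^ 2 ∂sm) := by
      field_simp
      ring
    rw [e2]
    have : m * (e * M) ≤ η := by linarith [he2]
    linarith

end Pool.Agent.H70.BA
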