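import Pool.Agent.H70.BA.Bal

set_option autoImplicit false

/-! # [H70 BA CNT] Packing, nets, colouring

`count`, `C = max 1 (c₂ / c₁)`: the sets `{w : rho w ζ < σ/2}`, `ζ ∈ X`, `rho z ζ < r`, are pairwise disjoint (`rho_tri`, `rho_comm`, `Sep`) and contained in `{w : rho w z < r + σ/2}`, so `card * c₁ (σ/2)² ≤ c₂ (r + σ/2)²` (`measureReal_biUnion_finset` / `measure_biUnion_finset`).
`net`: by `count` with `r = 2` (`rho ≤ 1 < 2`) the cardinality of the `σ`-separated sets is bounded; take one of maximal cardinality (`Nat.find` / `Nat.findGreatest` / `exists_max`..); if `z` has `σ ≤ rho z ζ` for all `ζ ∈ X` then `z ∉ X` (`rho_self`) and `insert z X` is separated. (For `σ > 1` the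
empty set or a single point; use `min σ 1` or treat `σ > 1`: any single point, `rho ≤ 1 < σ`; here `σ ≤ 1` is assumed.)
`colour`: induction on `X` (`Finset.induction_on`), the new point has at most `D` close points in the old set (subset of the filter for `insert`), so one of the `D + 1` colours is free (`Finset.exists_mem_notMem_of_card_lt_card` / pigeonhole), `Function.update`. -/

namespace Pool.Agent.H70.BA

open MeasureTheory Metric

theorem count : ∃ C : ℝ, 1 ≤ C ∧ ∀ σ : ℝ, 0 < σ → σ ≤ 1 → ∀ X : Finset S, Sep σ X →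
    ∀ (z : S) (r : ℝ), 0 < r →
      ((X.filter (fun ζ : S => rho z ζ < r)).card : ℝ) ≤ C * (2 * r / σ + 1) ^ 2 := by
  sorry

theorem net (σ : ℝ) (h0 : 0 < σ) (h1 : σ ≤ 1) :
    ∃ X : Finset S, Sep σ X ∧ ∀ z : S, ∃ ζ ∈ X, rho z ζ < σ := by
  sorry

theorem colour (D : ℕ) (σ : ℝ) (X : Finset S)
    (h : ∀ x ∈ X, (X.filter (fun y : S => y ≠ x ∧ rho x y < σ)).card ≤ D) :
    ∃ col : S → Fin (D + 1), ∀ x ∈ X, ∀ y ∈ X, x ≠ y → col x = col y → σ ≤ rho x y := by
  sorry

end Pool.Agent.H70.BA
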