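import Mathlib

set_option autoImplicit false

/-! # MP_845814_an (S05262), helper70: definitions

`E = ℂ²`, `S` its unit sphere, `sm` the surface measure of the frozen statement.
`ip ζ z = <z, ζ>` (holomorphic in `z`), `rho z ζ` = distance of `z` from the complex line of `ζ`
(for unit vectors `rho² = 1 - |ip|²`, a pseudo metric invariant under unimodular factors).
`V m` = finite sums of entire functions homogeneous of degrees `≥ m`.
`ker X n z = ∑_(ζ ∈ X) <z, ζ>^n`. -/

namespace Pool.Agent.H70.BA

open MeasureTheory Metric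

/-- `ℂ²` -/
abbrev E : Type := EuclideanSpace ℂ (Fin 2)

/-- the unit sphere -/
abbrev S : Type := sphere (0 : E) 1

/-- the surface measure -/
noncomputable abbrev sm : Measure S := (volume : Measure E).toSphere

/-- the inner product, holomorphic in `z` -/
noncomputable def ip (ζ z : E) : ℂ := inner ℂ ζ z

/-- the distance from `z` to the complex line of `ζ` (for unit `ζ`) -/
noncomputable def rho (z ζ : E) : ℝ := ‖z - ip ζ z • ζ‖

/-- entire and homogeneous of degree `k` -/
def Hom (k : ℕ) (H : E → ℂ) : Prop :=
  Differentiable ℂ H ∧ ∀ (t : ℂ) (z : E), H (t • z) = t ^ k * H z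

/-- finite sums of entire functions, homogeneous of degrees at least `m` -/
def V (m : ℕ) : Submodule ℂ (E → ℂ) := Submodule.span ℂ {H | ∃ k, m ≤ k ∧ Hom k H}

/-- a separated set -/
def Sep (σ : ℝ) (X : Finset S) : Prop := ∀ x ∈ X, ∀ y ∈ X, x ≠ y → σ ≤ rho x y

/-- the sum of the powers of the inner products -/
noncomputable def ker (X : Finset S) (n : ℕ) (z : E) : ℂ := ∑ ζ ∈ X, ip ζ z ^ n

end Pool.Agent.H70.BA
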