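import Pool.Agent.H70.BA.Stp

set_option autoImplicit false

/-! # [H70 BA EPO] One epoch

`walk`: iterate `step` `J` times from `G = 0` (`0 ∈ V 1`, `0 < h`, `0 < R`) with tolerances `η 2^(-j-1)` (also `≤ 1` in total): if all the amplitudes had `∫ amp0² > ε₁` then `∫ ‖G_J‖² ≥ J c ε₁ - η`, but `∫ ‖G_J‖² ≤ R² sm(S)`: contradiction for `J` large. So some `G = G_j` has `∫ amp0² ≤ ε₁`, and `‖G‖ ≤ η` where `h ≥ 2 δ` and on the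
ball of radius `1/2`. (Induction on the claim: either the walk has stopped, or after `j` steps the energy is at least `j c ε₁ - η`.)
`epoch`: `M = sm.real univ > 0`, `R = 64 M δ/ε`, `β = min δ' (R/2)`, `ε₁ = ε β²/8`, `η ≤ 2 δ`. `T = {h ≤ δ, δ' < h - Re G}`. On `T` the cutoff is `1`; either `amp0 ≥ β/2`: measure `≤ ε₁ (2/β)² = ε/2` (Chebyshev, `mul_meas_ge_le_integral_of_nonneg`), or `min .. < β ≤ R/2`, and `h - Re G > δ' ≥ β`, so `‖G‖ > R/2`: measure `≤ (4/R²) ∫ ‖G‖²`.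
`G² ∈ V 2` so `∫ G² = 0`: `∫ ‖G‖² = 2 ∫ (Re G)²`. `Re G ≤ 2 δ` on `S` (`Re G < h` where `h < 2 δ`, else `≤ ‖G‖ ≤ η ≤ 2 δ`), `∫ Re G = 0` (`V_int`): `(Re G)² ≤ R |Re G|`, `|Re G| = 2 (Re G)⁺ - Re G ≤ 4 δ - Re G`, so `∫ (Re G)² ≤ 4 δ R M`, measure `≤ (4/R²) · 8 δ R M = 32 δ M/R = ε/2`. -/

namespace Pool.Agent.H70.BA

open MeasureTheory Metric

theorem walk (h : C(S, ℝ)) (h0 : ∀ z, 0 < h z) (δ R η ε₁ : ℝ) (hδ : 0 < δ) (hR : 0 < R)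
    (hη : 0 < η) (hε : 0 < ε₁) :
    ∃ G ∈ V 1, (∀ z : S, (G z).re < h z) ∧ (∀ z : S, ‖G z‖ < R) ∧
      (∀ z : S, 2 * δ ≤ h z → ‖G z‖ ≤ η) ∧ (∀ z : E, ‖z‖ ≤ 1 / 2 → ‖G z‖ ≤ η) ∧
      ∫ z : S, amp0 h δ R G z ^ 2 ∂sm ≤ ε₁ := by
  sorry

theorem epoch (h : C(S, ℝ)) (h0 : ∀ z, 0 < h z) (δ δ' ε η : ℝ) (hδ : 0 < δ) (hδ' : 0 < δ')
    (hε : 0 < ε) (hη : 0 < η) :
    ∃ G ∈ V 1, (∀ z : S, (G z).re < h z) ∧ (∀ z : S, ‖G z‖ ≤ 64 * sm.real Set.univ * δ / ε) ∧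
      (∀ z : E, ‖z‖ ≤ 1 / 2 → ‖G z‖ ≤ η) ∧
      sm.real {z : S | h z ≤ δ ∧ δ' < h z - (G z).re} ≤ ε := by
  sorry

end Pool.Agent.H70.BA
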