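import Pool.Agent.H70.BA.Def

set_option autoImplicit false

/-! # [H70 BA LIM] The limit function (general lemma)

`sum_diff`: `G k` entire (differentiable on `E`), `‖G k z‖ ≤ u k` on the unit sphere, `u` summable. Maximum principle (`Complex.norm_le_of_forall_mem_frontier_norm_le` on the unit ball of `E`, `frontier_ball`, `closure_ball`): `‖G k z‖ ≤ u k` on the closed ball. So `z ↦ ∑' k, G k z` is continuous on the closed ball
(`continuousOn_tsum`), and for `‖z‖ < r < 1`: Cauchy estimate along lines: `‖fderiv ℂ (G k) z v‖ ≤ u k/(1-r) · ‖v‖` (`Complex.norm_deriv_le_of_forall_mem_sphere_norm_le` for `t ↦ G k (z + t • v)`, `‖v‖ = 1`, radius `1 - r`), so `‖fderiv‖ ≤ u k/(1-r)` (`ContinuousLinearMap.opNorm_le_bound`), and `hasFDerivAt_tsum_of_isPreconnected` on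
`ball 0 r` gives differentiability on the open ball. -/

namespace Pool.Agent.H70.BA

open MeasureTheory Metric

theorem le_on_ball {G : E → ℂ} (hG : Differentiable ℂ G) {u : ℝ} (h : ∀ z : S, ‖G z‖ ≤ u) (z : E)
    (hz : ‖z‖ ≤ 1) : ‖G z‖ ≤ u := by
  refine Complex.norm_le_of_forall_mem_frontier_norm_le (U := ball (0 : E) 1) isBounded_ball
    hG.diffContOnCl (C := u) ?_ ?_
  · intro w hw
    rw [frontier_ball (0 : E) one_ne_zero] at hw
    exact h ⟨w, hw⟩
  · rw [closure_ball (0 : E) one_ne_zero]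
    simpa using hz

theorem fderiv_le {G : E → ℂ} (hG : Differentiable ℂ G) {u : ℝ} (h : ∀ z : S, ‖G z‖ ≤ u)
    {r : ℝ} (hr : r < 1) (z : E) (hz : ‖z‖ < r) : ‖fderiv ℂ G z‖ ≤ u / (1 - r) := by
  have h1r : 0 < 1 - r := by linarith
  have hu : 0 ≤ u := (norm_nonneg _).trans (le_on_ball hG h z (by linarith))
  refine ContinuousLinearMap.opNorm_le_bound _ (by positivity) ?_
  intro v
  rcases eq_or_ne v 0 with rfl | hv
  · simp
  have hv' : 0 < ‖v‖ := norm_pos_iff.2 hv
  have hR : 0 < (1 - r) / ‖v‖ := by positivity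
  have hd : Differentiable ℂ (fun t : ℂ => G (z + t • v)) :=
    hG.comp ((differentiable_const z).add (differentiable_id.smul_const v))
  have key := Complex.norm_deriv_le_of_forall_mem_sphere_norm_le (c := 0) (C := u)
    (f := fun t : ℂ => G (z + t • v)) hR hd.diffContOnCl (by
      intro t ht
      apply le_on_ball hG h
      have ht' : ‖t‖ = (1 - r) / ‖v‖ := by simpa using ht
      calc ‖z + t • v‖ ≤ ‖z‖ + ‖t • v‖ := norm_add_le _ _
        _ = ‖z‖ + (1 - r) / ‖v‖ * ‖v‖ := by rw [norm_smul, ht']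
        _ = ‖z‖ + (1 - r) := by rw [div_mul_cancel₀ _ hv'.ne']
        _ ≤ 1 := by linarith)
  have hder : deriv (fun t : ℂ => G (z + t • v)) 0 = fderiv ℂ G z v := by
    have h1 : HasDerivAt (fun t : ℂ => z + t • v) v 0 := by
      have := (hasDerivAt_id (0 : ℂ)).smul_const v
      simpa using this.const_add z
    have h2 : HasFDerivAt G (fderiv ℂ G z) (z + (0 : ℂ) • v) := by
      simpa using (hG z).hasFDerivAt
    exact (h2.comp_hasDerivAt (0 : ℂ) h1).deriv
  rw [hder] at key
  calc ‖fderiv ℂ G z v‖ ≤ u / ((1 - r) / ‖v‖) := key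
    _ = u / (1 - r) * ‖v‖ := by field_simp

theorem sum_diff {G : ℕ → E → ℂ} {u : ℕ → ℝ} (hu : Summable u) (hG : ∀ k, Differentiable ℂ (G k))
    (h : ∀ k (z : S), ‖G k z‖ ≤ u k) :
    ContinuousOn (fun z => ∑' k, G k z) (closedBall (0 : E) 1) ∧
      DifferentiableOn ℂ (fun z => ∑' k, G k z) (ball (0 : E) 1) := by
  constructor
  · refine continuousOn_tsum (u := u) (fun k => (hG k).continuous.continuousOn) hu ?_
    intro k z hz
    exact le_on_ball (hG k) (h k) z (by simpa using hz)
  · intro z hz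
    have hz1 : ‖z‖ < 1 := by simpa using hz
    obtain ⟨r, hzr, hr1⟩ := exists_between hz1
    have hd : HasFDerivAt (fun y => ∑' k, G k y) (∑' k, fderiv ℂ (G k) z) z := by
      refine hasFDerivAt_tsum_of_isPreconnected (s := ball (0 : E) r) (u := fun k => u k / (1 - r))
        (f' := fun k x => fderiv ℂ (G k) x) (x₀ := z)
        (hu.div_const _) isOpen_ball (convex_ball (0 : E) r).isPreconnected ?_ ?_ ?_ ?_ ?_
      · intro k x _
        exact (hG k x).hasFDerivAt
      · intro k x hx
        exact fderiv_le (hG k) (h k) hr1 x (by simpa using hx)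
      · simpa using hzr
      · exact Summable.of_norm_bounded hu (fun k => le_on_ball (hG k) (h k) z hz1.le)
      · simpa using hzr
    exact hd.differentiableAt.differentiableWithinAt

end Pool.Agent.H70.BA
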