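import Pool.Agent.H70.BA.Seq
import Pool.Agent.H70.BA.Lim

set_option autoImplicit false

/-! # [H70 BA FIN] The counterexample

`F z = F0 z + ∑' k, G k z`, `f = exp F`. Continuity and differentiability: `sum_diff` with `u k = 1/2^(k+1)`, `F0` entire. `K = {z : S | ∀ k, -(1/(512 4^k)) ≤ Re (F0 z + ∑_(i<k) G i z)}`; for `z ∈ K`: the partial sums converge to `F z` (`Summable` by the bound; `HasSum.tendsto_sum_nat`), `Re < 0` and `≥ - 1/(512 4^k)`, so `Re F z = 0`, `‖f z‖ = 1`.
Every `z` satisfies the bound for `k = 0` (`Re F0 ≥ -1/1024 - 1/2048 ≥ -1/512`), so `z ∉ K` lies in one of the sets of `seqG` (least failing index); `measure_iUnion_le`, `∑ 1/2^(k+2) = 1/2`, `sm univ ≠ 0` (`toSphere_ne_zero`), so `sm K ≠ 0` (measurability of `K` is not needed: `univ ⊆ K ∪ ⋃ ..`).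
Not constant: if `exp (F z) = c` on the closed ball, then with `e = (1/2, 0)`: `exp (F e) = exp (F 0)`, so `F e - F 0 = 2 π i m` (`Complex.exp_eq_exp_iff_exists_int`), real part `0`; but `F e - F 0 = 1/4096 + ∑' G k e - ∑' G k 0`, and each of the two sums has norm `≤ 2/2^16 = 2^(-15)`, so the real part is positive. -/

namespace Pool.Agent.H70.BA

open MeasureTheory Metric

theorem counterexample : ∃ f : E → ℂ, ContinuousOn f (closedBall (0 : E) 1) ∧
    DifferentiableOn ℂ f (ball (0 : E) 1) ∧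
    sm {z : S | ‖f z‖ = 1} ≠ 0 ∧ ¬ ∃ c : ℂ, ∀ z ∈ closedBall (0 : E) 1, f z = c := by
  sorry

end Pool.Agent.H70.BA
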