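import Pool.Agent.H70.BA.Epo

set_option autoImplicit false

/-! # [H70 BA SEQ] The sequence of epochs

`δ : ℕ → ℝ` positive, `ε : ℕ → ℝ` positive, `F 0 = F0` (`Re F0 < 0` on `S`), `F (k+1) = F k + G k`, `G k` from `epoch` with `h = - Re (F k)` on `S` (continuous, positive), `δ = δ k`, `δ' = δ (k+1)`, `ε = ε k`, `η = η k`. Construct the sequence by recursion on a subtype / `exists_seq`-style with the invariant `Differentiable ℂ F ∧ ∀ z : S, (F z).re < 0`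
(the new `h` is `h - Re G`). Conclusion in terms of `G`: `F k = F 0 + ∑_(i<k) G i`. With `ε k = M / 2^(k+2)`, `M = sm.real univ`, `δ k = 1/(512 · 4^k)`: `64 M δ k / ε k = 1/2^(k+1)`, so `‖G k‖ ≤ 2^(-k-1)`, `η k = 1/(2^16 2^k)`. `δ 0 = 1/512`, `δ k = 1/(512 · 4^k)`. -/

namespace Pool.Agent.H70.BA

open MeasureTheory Metric

/-- the first function -/
noncomputable def F0 (z : E) : ℂ := -(1 / 1024 : ℝ) + (1 / 2048 : ℝ) * z 0

theorem seqG : ∃ G : ℕ → E → ℂ, (∀ k, Differentiable ℂ (G k)) ∧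
    (∀ k (z : S), ‖G k z‖ ≤ 1 / 2 ^ (k + 1)) ∧
    (∀ k (z : E), ‖z‖ ≤ 1 / 2 → ‖G k z‖ ≤ 1 / (2 ^ 16 * 2 ^ k)) ∧
    (∀ k (z : S), (F0 z + ∑ i ∈ Finset.range k, G i z).re < 0) ∧
    ∀ k, sm.real {z : S | -(1 / (512 * 4 ^ k)) ≤ (F0 z + ∑ i ∈ Finset.range k, G i z).re ∧
      (F0 z + ∑ i ∈ Finset.range (k + 1), G i z).re < -(1 / (512 * 4 ^ (k + 1)))} ≤
        sm.real Set.univ / 2 ^ (k + 2) := by
  sorry

end Pool.Agent.H70.BA
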