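import Pool.Agent.H70.BA.Def

set_option autoImplicit false

/-! # [H70 BA SPH] Invariance of the surface measure

`sphU U` is the homeomorphism of the sphere given by a linear isometry `U`.
`sphU_mp`: `Measure.ext`; for measurable `A`: `Measure.map_apply`, `toSphere_apply'` twice: the cone `Ioo 0 1 • (coe '' (sphU U ⁻¹' A))` is the preimage under `U` of the cone `Ioo 0 1 • (coe '' A)` (or its image under `U.symm`), and `U` preserves the volume (`LinearIsometryEquiv.measurePreserving`
for the real structure: `U.restrictScalars ℝ` or the version for inner product spaces; `MeasurePreserving.measure_preimage_equiv` with `U.toHomeomorph.toMeasurableEquiv`).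
`sm_map`: `sphU_mp.measure_preimage_equiv`-type (no measurability needed: `sphU U` is a homeomorphism, hence a measurable equivalence) or for measurable sets only (then use `MeasurableSet`).
`integral_smul`: `U = ` multiplication by the unimodular `t` (`LinearIsometryEquiv` built with `LinearIsometryEquiv.mk` from `LinearEquiv.smulOfNeZero`/`LinearEquiv.smulOfUnit`, `norm_smul`), `MeasurePreserving.integral_comp'` (measurable equivalence) or `integral_comp` with the measurable embedding. -/

namespace Pool.Agent.H70.BA

open MeasureTheory Metric

/-- the action of a linear isometry on the sphere -/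
noncomputable def sphU (U : E ≃ₗᵢ[ℂ] E) (z : S) : S :=
  ⟨U z, by rw [mem_sphere_zero_iff_norm, U.norm_map]; exact mem_sphere_zero_iff_norm.1 z.2⟩

theorem sphU_mp (U : E ≃ₗᵢ[ℂ] E) : MeasurePreserving (sphU U) sm sm := by
  sorry

theorem sm_map (U : E ≃ₗᵢ[ℂ] E) (A : Set S) (hA : MeasurableSet A) :
    sm.real {z : S | sphU U z ∈ A} = sm.real A := by
  sorry

theorem integral_smul (t : ℂ) (ht : ‖t‖ = 1) (φ : E → ℂ) :
    ∫ z : S, φ (t • (z : E)) ∂sm = ∫ z : S, φ z ∂sm := by
  sorry

end Pool.Agent.H70.BA
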