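import Pool.Agent.H70.BA.Blk

set_option autoImplicit false

/-! # [H70 BA STP] One step of the holomorphic random walk

`amp0 h δ R G z = (1/2) χ(z) min (h z - Re G z) (R - ‖G z‖)`, `χ = 1` where `h ≤ δ`, `χ = 0` where `h ≥ 2 δ`.
`step`: `m > 0` the minimum over the compact sphere of `min (h - Re G) (R - ‖G‖)` (continuous, positive). `block` with `A = amp0 ..` (nonnegative), tolerance `η₁ ≤ min (m/4) η`, `N₀ ≥ N` of `V_orth G`, `N₀ ≥ 1`, and `(R + η₁) 2^(-N₀) ≤ η`. `G' = G + H`.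
`‖H z‖ ≤ (1/2) min + m/4 < min` gives `Re G' < h`, `‖G'‖ < R`. If `h z ≥ 2 δ` then `A z = 0`, `‖H z‖ ≤ η`. `V_inner`: `‖H z‖ ≤ (R + η₁) ‖z‖^N₀ ≤ η` for `‖z‖ ≤ 1/2` (`A ≤ R`: `‖H‖ ≤ R/2 + ..`).
Energy: `‖G + H‖² = ‖G‖² + ‖H‖² + 2 Re (conj G H)` (`Complex.normSq_add` or `Complex.add_conj`), the last integral is `0` (`V_orth`; `integral_re`-type: `∫ Re = Re ∫`), continuous functions are integrable. -/

namespace Pool.Agent.H70.BA

open MeasureTheory Metric

/-- the amplitude of the next step -/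
noncomputable def amp0 (h : C(S, ℝ)) (δ R : ℝ) (G : E → ℂ) (z : S) : ℝ :=
  (1 / 2) * max 0 (min 1 (2 - h z / δ)) * min (h z - (G z).re) (R - ‖G z‖)

theorem continuous_amp0 (h : C(S, ℝ)) (δ R : ℝ) {G : E → ℂ} (hG : Continuous G) :
    Continuous (amp0 h δ R G) := by
  have hG' : Continuous fun z : S => G (z : E) := hG.comp continuous_subtype_val
  have hh : Continuous fun z : S => h z := h.continuous
  unfold amp0
  exact (continuous_const.mul (continuous_const.max (continuous_const.min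
    (continuous_const.sub (hh.div_const δ))))).mul
    ((hh.sub (Complex.continuous_re.comp hG')).min (continuous_const.sub hG'.norm))

private theorem cont_int {F : Type*} [NormedAddCommGroup F] [SecondCountableTopology F]
    {f : S → F} (hf : Continuous f) : Integrable f sm :=
  hf.integrable_of_hasCompactSupport (HasCompactSupport.of_compactSpace f)

private theorem energy {G H : E → ℂ} (hG : Continuous G) (hH : Continuous H)
    (h0 : ∫ z : S, (starRingEnd ℂ) (G z) * H z ∂sm = 0) :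
    ∫ z : S, ‖(G + H) z‖ ^ 2 ∂sm = ∫ z : S, ‖G z‖ ^ 2 ∂sm + ∫ z : S, ‖H z‖ ^ 2 ∂sm := by
  have hG' : Continuous fun z : S => G (z : E) := hG.comp continuous_subtype_val
  have hH' : Continuous fun z : S => H (z : E) := hH.comp continuous_subtype_val
  have h1 : ∀ z : S, ‖(G + H) z‖ ^ 2 =
      (‖G z‖ ^ 2 + ‖H z‖ ^ 2) + 2 * ((starRingEnd ℂ) (G z) * H z).re := by
    intro z
    have h2 := Complex.normSq_add (H z) (G z)
    rw [Complex.normSq_eq_norm_sq, Complex.normSq_eq_norm_sq, Complex.normSq_eq_norm_sq] at h2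
    rw [Pi.add_apply, add_comm (G z) (H z), h2, mul_comm (H z) _]
    ring
  have hc : Continuous fun z : S => (starRingEnd ℂ) (G z) * H z :=
    (Complex.continuous_conj.comp hG').mul hH'
  have hre : ∫ z : S, ((starRingEnd ℂ) (G z) * H z).re ∂sm = 0 := by
    have h3 : ∫ z : S, ((starRingEnd ℂ) (G z) * H z).re ∂sm =
        (∫ z : S, (starRingEnd ℂ) (G z) * H z ∂sm).re := integral_re (𝕜 := ℂ) (cont_int hc)
    rw [h3, h0, Complex.zero_re]
  have hi1 : Integrable (fun z : S => ‖G z‖ ^ 2) sm := cont_int (hG'.norm.pow 2)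
  have hi2 : Integrable (fun z : S => ‖H z‖ ^ 2) sm := cont_int (hH'.norm.pow 2)
  have hi3 : Integrable (fun z : S => 2 * ((starRingEnd ℂ) (G z) * H z).re) sm :=
    cont_int (continuous_const.mul (Complex.continuous_re.comp hc))
  calc ∫ z : S, ‖(G + H) z‖ ^ 2 ∂sm
      = ∫ z : S, ((‖G z‖ ^ 2 + ‖H z‖ ^ 2) + 2 * ((starRingEnd ℂ) (G z) * H z).re) ∂sm :=
        integral_congr_ae (Filter.Eventually.of_forall h1)
    _ = ∫ z : S, (‖G z‖ ^ 2 + ‖H z‖ ^ 2) ∂sm +
          ∫ z : S, 2 * ((starRingEnd ℂ) (G z) * H z).re ∂sm := integral_add (hi1.add hi2) hi3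
    _ = _ := by
        rw [integral_add hi1 hi2, integral_const_mul, hre]
        ring

theorem step : ∃ c : ℝ, 0 < c ∧ ∀ (h : C(S, ℝ)) (δ R η : ℝ), 0 < δ → 0 < R → 0 < η →
    ∀ G ∈ V 1, (∀ z : S, (G z).re < h z) → (∀ z : S, ‖G z‖ < R) →
    ∃ G' ∈ V 1, (∀ z : S, (G' z).re < h z) ∧ (∀ z : S, ‖G' z‖ < R) ∧
      (∀ z : S, 2 * δ ≤ h z → ‖G' z - G z‖ ≤ η) ∧ (∀ z : E, ‖z‖ ≤ 1 / 2 → ‖G' z - G z‖ ≤ η) ∧
      ∫ z : S, ‖G z‖ ^ 2 ∂sm + c * ∫ z : S, amp0 h δ R G z ^ 2 ∂sm - η ≤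
        ∫ z : S, ‖G' z‖ ^ 2 ∂sm := by
  obtain ⟨c, hc, hblock⟩ := block
  refine ⟨c, hc, fun h δ R η hδ hR hη G hG hre hnorm => ?_⟩
  have hGc : Continuous G := (V_diff hG).continuous
  have hG' : Continuous fun z : S => G (z : E) := hGc.comp continuous_subtype_val
  have hh : Continuous fun z : S => h z := h.continuous
  -- the minimum of the gap
  have hgap : Continuous fun z : S => min (h z - (G z).re) (R - ‖G z‖) :=
    (hh.sub (Complex.continuous_re.comp hG')).min (continuous_const.sub hG'.norm)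
  have hne : (Set.univ : Set S).Nonempty := by
    refine ⟨⟨EuclideanSpace.single 0 1, ?_⟩, trivial⟩
    simp
  obtain ⟨z₀, -, hz₀⟩ := isCompact_univ.exists_isMinOn hne hgap.continuousOn
  obtain ⟨m, hm, hmle⟩ : ∃ m : ℝ, 0 < m ∧ ∀ z : S, m ≤ min (h z - (G z).re) (R - ‖G z‖) := by
    refine ⟨min (h z₀ - (G z₀).re) (R - ‖G z₀‖), ?_, fun z => hz₀ (Set.mem_univ z)⟩
    exact lt_min (by linarith [hre z₀]) (by linarith [hnorm z₀])
  obtain ⟨N, hN⟩ := V_orth (V_mono (Nat.zero_le 1) hG)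
  obtain ⟨L, hL⟩ := exists_pow_lt_of_lt_one (show (0 : ℝ) < η / (R + η) by positivity)
    (show (1 / 2 : ℝ) < 1 by norm_num)
  set η₁ : ℝ := min (m / 4) η with hη₁
  have hη₁0 : 0 < η₁ := lt_min (by linarith) hη
  have hη₁m : η₁ ≤ m / 4 := min_le_left _ _
  have hη₁η : η₁ ≤ η := min_le_right _ _
  have hχ0 : ∀ z : S, 0 ≤ max 0 (min 1 (2 - h z / δ)) := fun z => le_max_left _ _
  have hχ1 : ∀ z : S, max 0 (min 1 (2 - h z / δ)) ≤ 1 :=
    fun z => max_le (by norm_num) (min_le_left _ _)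
  let A : C(S, ℝ) := ⟨amp0 h δ R G, continuous_amp0 h δ R hGc⟩
  have hA : ∀ z, A z = amp0 h δ R G z := fun z => rfl
  have hA0 : ∀ z, 0 ≤ A z := by
    intro z
    rw [hA, amp0]
    have := hmle z
    exact mul_nonneg (mul_nonneg (by norm_num) (hχ0 z)) (by linarith)
  have hA1 : ∀ z, A z ≤ (1 / 2) * min (h z - (G z).re) (R - ‖G z‖) := by
    intro z
    rw [hA, amp0]
    have h1 := hmle z
    refine mul_le_mul_of_nonneg_right ?_ (by linarith)
    linarith [hχ1 z]
  obtain ⟨H, hHV, hHA, hHE⟩ := hblock A hA0 η₁ hη₁0 (max N (max 1 L))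
  have hHV1 : H ∈ V 1 := V_mono ((le_max_left 1 L).trans (le_max_right _ _)) hHV
  have hHVN : H ∈ V N := V_mono (le_max_left _ _) hHV
  have hHc : Continuous H := (V_diff hHV).continuous
  have hHlt : ∀ z : S, ‖H z‖ < min (h z - (G z).re) (R - ‖G z‖) := by
    intro z
    have h1 := hHA z
    have h2 := hA1 z
    have h3 := hmle z
    linarith
  refine ⟨G + H, Submodule.add_mem _ hG hHV1, fun z => ?_, fun z => ?_, fun z hz => ?_,
    fun z hz => ?_, ?_⟩
  · have h1 := (hHlt z).trans_le (min_le_left _ _)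
    have h2 := Complex.re_le_norm (H z)
    rw [Pi.add_apply, Complex.add_re]
    linarith
  · have h1 := (hHlt z).trans_le (min_le_right _ _)
    have h2 := norm_add_le (G z) (H z)
    rw [Pi.add_apply]
    linarith
  · rw [Pi.add_apply, add_sub_cancel_left]
    have h1 : A z = 0 := by
      rw [hA, amp0]
      have h2 : 2 ≤ h z / δ := by
        rw [le_div_iff₀ hδ]
        exact hz
      have h3 : max 0 (min 1 (2 - h z / δ)) = 0 :=
        max_eq_left ((min_le_right _ _).trans (by linarith))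
      rw [h3]
      ring
    have h2 := hHA z
    linarith
  · rw [Pi.add_apply, add_sub_cancel_left]
    have hB : ∀ z : S, ‖H z‖ ≤ R + η := by
      intro z
      have h1 := (hHlt z).trans_le (min_le_right _ _)
      have h2 := norm_nonneg (G z)
      linarith
    have h1 := V_inner hHV (R + η) hB z (by linarith)
    have h2 : ‖z‖ ^ (max N (max 1 L)) ≤ (1 / 2 : ℝ) ^ L := by
      calc ‖z‖ ^ (max N (max 1 L)) ≤ (1 / 2 : ℝ) ^ (max N (max 1 L)) :=
            pow_le_pow_left₀ (norm_nonneg _) hz _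
        _ ≤ (1 / 2 : ℝ) ^ L := pow_le_pow_of_le_one (by norm_num) (by norm_num)
            ((le_max_right 1 L).trans (le_max_right _ _))
    have h3 : (R + η) * ‖z‖ ^ (max N (max 1 L)) ≤ (R + η) * (η / (R + η)) :=
      mul_le_mul_of_nonneg_left (h2.trans hL.le) (by linarith)
    have h4 : (R + η) * (η / (R + η)) = η := by field_simp
    linarith
  · have h1 := energy hGc hHc (hN H hHVN)
    rw [h1]
    have h2 : ∫ z : S, amp0 h δ R G z ^ 2 ∂sm = ∫ z, A z ^ 2 ∂sm := rfl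
    rw [h2]
    linarith

end Pool.Agent.H70.BA
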