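import Pool.Agent.H70.BA.Sph

set_option autoImplicit false

/-! # [H70 BA VSP] The spaces `V m`

`V_mul`: `Submodule.span_induction` twice, `Hom k G → Hom l H → Hom (k+l) (G H)`. `V_diff`: span induction. `V_mono`: `Submodule.span_mono`.
`V_int`: for `Hom k H`, `k ≥ 1`: `t = exp (i π / k)` has `‖t‖ = 1`, `t^k = -1`; `integral_smul t`: `∫ H = ∫ t^k H = - ∫ H`. Sums: `integral_add` (continuous functions on the compact sphere, finite measure: integrable, `Continuous.integrable_of_hasCompactSupport` or `ContinuousMap`-style lemma `V_integrable`),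
`integral_const_mul`. `V_orth`: span induction on `G` (claim: `∃ N, ∀ H ∈ V N, ..`): for `Hom k G` take `N = k + 1`; for `Hom l H`, `l > k`, `t = exp (i π/(l-k))`: `conj (G (t z)) H (t z) = conj(t)^k t^l conj (G z) H z = t^(l-k) .. = - ..`; inner span induction on `H`. Sums: the maximum of the two `N`
(`V_mono`).
`V_inner` (Schwarz lemma): span induction gives for every `ζ : E` an entire `q : ℂ → ℂ` with `H (t • ζ) = t^m * q t`; for `ζ ∈ S` and `‖t‖ = 1` the point `t • ζ` is in the sphere so `‖q t‖ ≤ B`; maximum principle on the unit disc (`Complex.norm_le_of_forall_mem_frontier_norm_le`, `frontier_ball`): `‖q t‖ ≤ B` for `‖t‖ ≤ 1`.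
`z = ‖z‖ • ζ`, (`z = 0` separately: any unit vector `ζ`, `t = 0`). -/

namespace Pool.Agent.H70.BA

open MeasureTheory Metric ComplexConjugate

theorem V_mono {m n : ℕ} (h : m ≤ n) : V n ≤ V m :=
  Submodule.span_mono fun _ hH => by
    obtain ⟨k, hk, hH⟩ := hH
    exact ⟨k, h.trans hk, hH⟩

theorem hom_mem {k m : ℕ} {H : E → ℂ} (h : Hom k H) (hk : m ≤ k) : H ∈ V m :=
  Submodule.subset_span ⟨k, hk, h⟩

theorem V_mul {m n : ℕ} {G H : E → ℂ} (hG : G ∈ V m) (hH : H ∈ V n) : G * H ∈ V (m + n) := by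
  refine Submodule.span_induction (p := fun G _ => G * H ∈ V (m + n)) ?_ ?_ ?_ ?_ hG
  · rintro G ⟨k, hk, hGk⟩
    refine Submodule.span_induction (p := fun H _ => G * H ∈ V (m + n)) ?_ ?_ ?_ ?_ hH
    · rintro H ⟨l, hl, hHl⟩
      refine hom_mem (k := k + l) ⟨hGk.1.mul hHl.1, fun t z => ?_⟩ (by omega)
      change G (t • z) * H (t • z) = t ^ (k + l) * (G z * H z)
      rw [hGk.2, hHl.2, pow_add]
      ring
    · rw [mul_zero]
      exact Submodule.zero_mem _
    · intro x y _ _ hx hy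
      rw [mul_add]
      exact Submodule.add_mem _ hx hy
    · intro c x _ hx
      rw [mul_smul_comm]
      exact Submodule.smul_mem _ _ hx
  · rw [zero_mul]
    exact Submodule.zero_mem _
  · intro x y _ _ hx hy
    rw [add_mul]
    exact Submodule.add_mem _ hx hy
  · intro c x _ hx
    rw [smul_mul_assoc]
    exact Submodule.smul_mem _ _ hx

theorem V_diff {m : ℕ} {G : E → ℂ} (hG : G ∈ V m) : Differentiable ℂ G := by
  refine Submodule.span_induction (p := fun G _ => Differentiable ℂ G) ?_ ?_ ?_ ?_ hG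
  · rintro G ⟨k, hk, hGk⟩
    exact hGk.1
  · exact differentiable_const 0
  · intro x y _ _ hx hy
    exact hx.add hy
  · intro c x _ hx
    exact hx.const_smul c

private theorem vsp_int {φ : S → ℂ} (h : Continuous φ) : Integrable φ sm :=
  h.integrable_of_hasCompactSupport (HasCompactSupport.of_compactSpace φ)

private theorem vsp_cont {m : ℕ} {G : E → ℂ} (hG : G ∈ V m) : Continuous fun z : S => G z :=
  (V_diff hG).continuous.comp continuous_subtype_val

private theorem vsp_t (k : ℕ) (hk : 1 ≤ k) : ∃ t : ℂ, ‖t‖ = 1 ∧ t ^ k = -1 := by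
  refine ⟨Complex.exp (((Real.pi / k : ℝ) : ℂ) * Complex.I), Complex.norm_exp_ofReal_mul_I _, ?_⟩
  rw [← Complex.exp_nat_mul]
  have h1 : (k : ℂ) ≠ 0 := by exact_mod_cast (show k ≠ 0 by omega)
  have h2 : (k : ℂ) * (((Real.pi / k : ℝ) : ℂ) * Complex.I) = Real.pi * Complex.I := by
    push_cast
    field_simp
  rw [h2, Complex.exp_pi_mul_I]

theorem V_int {G : E → ℂ} (hG : G ∈ V 1) : ∫ z : S, G z ∂sm = 0 := by
  refine Submodule.span_induction (p := fun G _ => ∫ z : S, G z ∂sm = 0) ?_ ?_ ?_ ?_ hG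
  · rintro G ⟨k, hk, hGk⟩
    obtain ⟨t, ht, htk⟩ := vsp_t k hk
    have h1 := integral_smul t ht G
    have h2 : ∀ z : S, G (t • (z : E)) = - G z := by
      intro z
      rw [hGk.2, htk, neg_one_mul]
    simp only [h2] at h1
    rw [integral_neg] at h1
    have h3 : (2 : ℂ) * ∫ z : S, G z ∂sm = 0 := by
      linear_combination -h1
    exact (mul_eq_zero.1 h3).resolve_left two_ne_zero
  · simp
  · intro x y hx' hy' hx hy
    have h1 : ∫ z : S, (x + y) z ∂sm = ∫ z : S, (x z + y z) ∂sm := rfl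
    rw [h1, integral_add (vsp_int (vsp_cont hx')) (vsp_int (vsp_cont hy')), hx, hy, add_zero]
  · intro c x _ hx
    have h1 : ∫ z : S, (c • x) z ∂sm = ∫ z : S, c * x z ∂sm := rfl
    rw [h1, integral_const_mul, hx, mul_zero]

private theorem vsp_hom {k : ℕ} {G : E → ℂ} (hG : Hom k G) {H : E → ℂ} (hH : H ∈ V (k + 1)) :
    ∫ z : S, conj (G z) * H z ∂sm = 0 := by
  have hGc : Continuous fun z : S => conj (G z) :=
    Complex.continuous_conj.comp (hG.1.continuous.comp continuous_subtype_val)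
  refine Submodule.span_induction (p := fun H _ => ∫ z : S, conj (G z) * H z ∂sm = 0)
    ?_ ?_ ?_ ?_ hH
  · rintro H ⟨l, hl, hHl⟩
    obtain ⟨j, rfl⟩ : ∃ j, l = k + j := ⟨l - k, by omega⟩
    obtain ⟨t, ht, htj⟩ := vsp_t j (by omega)
    have h1 := integral_smul t ht (fun z => conj (G z) * H z)
    have hc : conj t * t = 1 := by
      rw [mul_comm, Complex.mul_conj, Complex.normSq_eq_norm_sq, ht]
      norm_num
    have h2 : ∀ z : S, conj (G (t • (z : E))) * H (t • (z : E)) = - (conj (G z) * H z) := by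
      intro z
      rw [hG.2, hHl.2, map_mul, map_pow, pow_add, htj]
      have h3 : conj t ^ k * t ^ k = 1 := by rw [← mul_pow, hc, one_pow]
      linear_combination -(conj (G z) * H z) * h3
    simp only [h2] at h1
    rw [integral_neg] at h1
    have h3 : (2 : ℂ) * ∫ z : S, conj (G z) * H z ∂sm = 0 := by
      linear_combination -h1
    exact (mul_eq_zero.1 h3).resolve_left two_ne_zero
  · simp
  · intro x y hx' hy' hx hy
    have h1 : ∫ z : S, conj (G z) * (x + y) z ∂sm =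
        ∫ z : S, (conj (G z) * x z + conj (G z) * y z) ∂sm := by
      congr 1
      funext z
      exact mul_add _ _ _
    have hc : ∀ w : E → ℂ, w ∈ V (k + 1) → Continuous fun z : S => conj (G z) * w z := fun w hw =>
      hGc.mul (vsp_cont hw)
    rw [h1, integral_add (vsp_int (hc x hx')) (vsp_int (hc y hy')), hx, hy, add_zero]
  · intro c x _ hx
    have h1 : ∫ z : S, conj (G z) * (c • x) z ∂sm = ∫ z : S, c * (conj (G z) * x z) ∂sm := by
      congr 1
      funext z
      change conj (G z) * (c * x z) = _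
      ring
    rw [h1, integral_const_mul, hx, mul_zero]

theorem V_orth {G : E → ℂ} (hG : G ∈ V 0) :
    ∃ N : ℕ, ∀ H ∈ V N, ∫ z : S, conj (G z) * H z ∂sm = 0 := by
  refine Submodule.span_induction
    (p := fun G _ => ∃ N : ℕ, ∀ H ∈ V N, ∫ z : S, conj (G z) * H z ∂sm = 0) ?_ ?_ ?_ ?_ hG
  · rintro G ⟨k, _, hGk⟩
    exact ⟨k + 1, fun H hH => vsp_hom hGk hH⟩
  · exact ⟨0, fun H _ => by simp⟩
  · rintro x y hx' hy' ⟨N1, h1⟩ ⟨N2, h2⟩
    refine ⟨max N1 N2, fun H hH => ?_⟩
    have h3 : ∫ z : S, conj ((x + y) z) * H z ∂sm =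
        ∫ z : S, (conj (x z) * H z + conj (y z) * H z) ∂sm := by
      congr 1
      funext z
      change conj (x z + y z) * H z = _
      rw [map_add, add_mul]
    have hc : ∀ w : E → ℂ, w ∈ V 0 → Continuous fun z : S => conj (w z) * H z := fun w hw =>
      (Complex.continuous_conj.comp (vsp_cont hw)).mul (vsp_cont hH)
    rw [h3, integral_add (vsp_int (hc x hx')) (vsp_int (hc y hy')),
      h1 H (V_mono (le_max_left _ _) hH), h2 H (V_mono (le_max_right _ _) hH), add_zero]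
  · rintro c x _ ⟨N, h1⟩
    refine ⟨N, fun H hH => ?_⟩
    have h3 : ∫ z : S, conj ((c • x) z) * H z ∂sm = ∫ z : S, conj c * (conj (x z) * H z) ∂sm := by
      congr 1
      funext z
      change conj (c * x z) * H z = _
      rw [map_mul]
      ring
    rw [h3, integral_const_mul, h1 H hH, mul_zero]

private theorem vsp_q {m : ℕ} {H : E → ℂ} (hH : H ∈ V m) (ζ : E) :
    ∃ q : ℂ → ℂ, Differentiable ℂ q ∧ ∀ t : ℂ, H (t • ζ) = t ^ m * q t := by
  refine Submodule.span_induction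
    (p := fun H _ => ∃ q : ℂ → ℂ, Differentiable ℂ q ∧ ∀ t : ℂ, H (t • ζ) = t ^ m * q t)
    ?_ ?_ ?_ ?_ hH
  · rintro H ⟨k, hk, hHk⟩
    refine ⟨fun t => t ^ (k - m) * H ζ, by fun_prop, fun t => ?_⟩
    rw [hHk.2, ← mul_assoc, ← pow_add]
    congr 2
    omega
  · exact ⟨fun _ => 0, differentiable_const 0, fun t => by simp⟩
  · rintro x y _ _ ⟨q1, d1, h1⟩ ⟨q2, d2, h2⟩
    refine ⟨fun t => q1 t + q2 t, d1.add d2, fun t => ?_⟩
    change x (t • ζ) + y (t • ζ) = _
    rw [h1, h2]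
    ring
  · rintro c x _ ⟨q1, d1, h1⟩
    refine ⟨fun t => c * q1 t, d1.const_mul c, fun t => ?_⟩
    change c * x (t • ζ) = _
    rw [h1]
    ring

theorem V_inner {m : ℕ} {H : E → ℂ} (hH : H ∈ V m) (B : ℝ) (hB : ∀ z : S, ‖H z‖ ≤ B) (z : E)
    (hz : ‖z‖ ≤ 1) : ‖H z‖ ≤ B * ‖z‖ ^ m := by
  have hpol : ∃ (ζ : E) (t : ℂ), ‖ζ‖ = 1 ∧ z = t • ζ ∧ ‖t‖ = ‖z‖ := by
    by_cases h0 : z = 0
    · refine ⟨EuclideanSpace.single 0 1, 0, by simp, by simp [h0], by simp [h0]⟩
    · have hn : ‖z‖ ≠ 0 := norm_ne_zero_iff.2 h0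
      refine ⟨((‖z‖ : ℂ))⁻¹ • z, (‖z‖ : ℂ), ?_, ?_, ?_⟩
      · rw [norm_smul, norm_inv, Complex.norm_real, norm_norm, inv_mul_cancel₀ hn]
      · rw [smul_smul, mul_inv_cancel₀ (by exact_mod_cast hn), one_smul]
      · rw [Complex.norm_real, norm_norm]
  obtain ⟨ζ, t, hζ, rfl, ht⟩ := hpol
  obtain ⟨q, hq, hqt⟩ := vsp_q hH ζ
  have hb : ‖q t‖ ≤ B := by
    refine Complex.norm_le_of_forall_mem_frontier_norm_le (U := ball (0 : ℂ) 1)
      isBounded_ball hq.diffContOnCl ?_ ?_
    · intro s hs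
      rw [frontier_ball (0 : ℂ) one_ne_zero, mem_sphere_zero_iff_norm] at hs
      have h1 := hB ⟨s • ζ, by rw [mem_sphere_zero_iff_norm, norm_smul, hs, hζ, one_mul]⟩
      have h2 : H (s • ζ) = s ^ m * q s := hqt s
      change ‖H (s • ζ)‖ ≤ B at h1
      rw [h2, norm_mul, norm_pow, hs, one_pow, one_mul] at h1
      exact h1
    · rw [closure_ball (0 : ℂ) one_ne_zero, mem_closedBall_zero_iff, ht]
      exact hz
  rw [hqt t, norm_mul, norm_pow, ht, mul_comm]
  exact mul_le_mul_of_nonneg_right hb (by positivity)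

end Pool.Agent.H70.BA
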